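import Mathlib
import Pool.Agent.H438R2.RZ.Defs
set_option autoImplicit false

/-! # Bochner-Riesz means of functions dominated by product functions: definitions -/

namespace Pool.Agent.TH278

open MeasureTheory Set Complex
open scoped ENNReal RealInnerProductSpace
open Pool.Agent.H438R2.RZ (e Good ft Pl Bump mA mC Arc Win sl SL Bk gA TR)
open Pool.Agent.H789R2.FR (E)

/-- multiplier of an arc of the circle of radius `r` (thickness `L^{-2}`) -/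
noncomputable def mAr (ψ α β : ℝ → ℝ) (L r : ℝ) (ξ : ℝ × ℝ) : ℂ :=
  mA ψ α β (L * r) (ξ.1 / r, ξ.2 / r)

/-- multiplier of a cap of the circle of radius `r` -/
noncomputable def mCr (ψ α β η : ℝ → ℝ) (L r : ℝ) (a : ℤ) (ξ : ℝ × ℝ) : ℂ :=
  mC ψ α β η (L * r) a (ξ.1 / r, ξ.2 / r)

/-- the annulus `|ξ|^2 ≈ v`, of thickness `L^{-2}` -/
noncomputable def mV (ψ : ℝ → ℝ) (L v : ℝ) (ξ : ℝ × ℝ) : ℂ :=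
  ((ψ (L ^ 2 * (v - (ξ.1 ^ 2 + ξ.2 ^ 2))) : ℝ) : ℂ)

/-- uniformly good measurable families of functions on the plane -/
def GoodF {Z : Type} [MeasurableSpace Z] (G : Z → ℝ × ℝ → ℂ) : Prop :=
  Measurable (Function.uncurry G) ∧ (∃ M : ℝ, ∀ ζ z, ‖G ζ z‖ ≤ M) ∧
    ∃ B : ℝ, ∀ ζ z, G ζ z ≠ 0 → |z.1| ≤ B ∧ |z.2| ≤ B

/-- majorant of the one dimensional kernels -/
noncomputable def kk (L s : ℝ) : ℝ := min (1 / L) (min (1 / |s|) (L ^ 2 / s ^ 2))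

/-- bounded measurable functions on `ℝ^n` with bounded support -/
def GoodN {n : ℕ} (f : E n → ℂ) : Prop :=
  Measurable f ∧ (∃ M : ℝ, ∀ x, ‖f x‖ ≤ M) ∧ ∃ B : ℝ, ∀ x, f x ≠ 0 → ‖x‖ ≤ B

/-- the point of `ℝ^{m+1}` with `i`-th coordinate `s` and the other coordinates `y` -/
noncomputable def ins {m : ℕ} (i : Fin (m + 1)) (s : ℝ) (y : E m) : E (m + 1) :=
  WithLp.toLp 2 (i.insertNth s (fun j => y j))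

/-- the point of `ℝ^{k+2}` with first two coordinates `z` and the other coordinates `w` -/
noncomputable def inp {k : ℕ} (z : ℝ × ℝ) (w : E k) : E (k + 2) :=
  WithLp.toLp 2 (Fin.cons z.1 (Fin.cons z.2 (fun j => w j)))

/-- one dimensional kernels `∫ ψ(L^2(τ - ξ^2)) e(s ξ) dξ` -/
noncomputable def kern (ψ : ℝ → ℝ) (L τ s : ℝ) : ℂ :=
  ∫ ξ : ℝ, ((ψ (L ^ 2 * (τ - ξ ^ 2)) : ℝ) : ℂ) * e (s * ξ)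

/-- the operator on `ℝ^m` with multiplier `kern ψ L (1 - |ζ|^2) r` -/
noncomputable def Qop {m : ℕ} (ψ : ℝ → ℝ) (L r : ℝ) (G : E m → ℂ) (y : E m) : ℂ :=
  ∫ ζ : E m, kern ψ L (1 - ‖ζ‖ ^ 2) r * (∫ y' : E m, e (-(⟪y', ζ⟫ : ℝ)) * G y') * e (⟪y, ζ⟫ : ℝ)

/-- the annulus multiplier of `ℝ^n` as a function of `|ξ|^2` -/
noncomputable def ML (ψ : ℝ → ℝ) (L : ℝ) (u : ℝ) : ℝ := ψ (L ^ 2 * (1 - u))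

/-- bounded overlap of sums of caps of two circles with radii in `[1/2,1]` -/
def Overlap2 (N : ℕ) : Prop :=
  ∀ L : ℝ, 20 ≤ L → ∀ r s : ℝ, 1 / 2 ≤ r → r ≤ 1 → 1 / 2 ≤ s → s ≤ 1 →
    ∀ ξ : ℝ × ℝ, {p : ℤ × ℤ | ∃ P P' : ℝ × ℝ, |L * P.1 - p.1| ≤ 1 ∧ |L * P'.1 - p.2| ≤ 1 ∧
      |P.1| ≤ 4 / 5 * r ∧ |P'.1| ≤ 4 / 5 * s ∧ 1 / 10 * r ≤ P.2 ∧ 1 / 10 * s ≤ P'.2 ∧
      |r ^ 2 - (P.1 ^ 2 + P.2 ^ 2)| ≤ 2 / L ^ 2 ∧ |s ^ 2 - (P'.1 ^ 2 + P'.2 ^ 2)| ≤ 2 / L ^ 2 ∧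
      P.1 + P'.1 = ξ.1 ∧ P.2 + P'.2 = ξ.2}.Finite ∧
    {p : ℤ × ℤ | ∃ P P' : ℝ × ℝ, |L * P.1 - p.1| ≤ 1 ∧ |L * P'.1 - p.2| ≤ 1 ∧
      |P.1| ≤ 4 / 5 * r ∧ |P'.1| ≤ 4 / 5 * s ∧ 1 / 10 * r ≤ P.2 ∧ 1 / 10 * s ≤ P'.2 ∧
      |r ^ 2 - (P.1 ^ 2 + P.2 ^ 2)| ≤ 2 / L ^ 2 ∧ |s ^ 2 - (P'.1 ^ 2 + P'.2 ^ 2)| ≤ 2 / L ^ 2 ∧
      P.1 + P'.1 = ξ.1 ∧ P.2 + P'.2 = ξ.2}.ncard ≤ N

/-- orthogonality for two radii -/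
def Orth2 (ψ α β η : ℝ → ℝ) (C : ℝ) : Prop :=
  ∀ L : ℝ, 20 ≤ L → ∀ r s : ℝ, 1 / 2 ≤ r → r ≤ 1 → 1 / 2 ≤ s → s ≤ 1 →
    ∀ g h : ℝ × ℝ → ℂ, Good g → Good h →
      ∫⁻ z, ‖Pl (mAr ψ α β L r) g z‖ₑ ^ 2 * ‖Pl (mAr ψ α β L s) h z‖ₑ ^ 2 ≤
        ENNReal.ofReal C * ∫⁻ z, (∑ a ∈ SL (L * r), ‖Pl (mCr ψ α β η L r a) g z‖ₑ ^ 2) *
          (∑ b ∈ SL (L * s), ‖Pl (mCr ψ α β η L s b) h z‖ₑ ^ 2)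

/-- the caps of radius `r` are dominated by averages over boxes -/
def CapConv (ψ α β η θ : ℝ → ℝ) (C : ℝ) : Prop :=
  ∀ L : ℝ, 20 ≤ L → ∀ r : ℝ, 1 / 2 ≤ r → r ≤ 1 → ∀ a : ℤ, |(a : ℝ)| ≤ 9 / 10 * (L * r) →
    ∀ g : ℝ × ℝ → ℂ, Good g → ∀ z : ℝ × ℝ,
      ‖Pl (mCr ψ α β η L r a) g z‖ₑ ^ 2 ≤ ENNReal.ofReal C *
        ∫⁻ z', ENNReal.ofReal (Bk L (sl (L * r) a) (z - z')) * ‖gA θ L a g z'‖ₑ ^ 2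

/-- the maximal function over all directions -/
def KakM (C : ℝ) : Prop :=
  ∀ L : ℝ, 10 ≤ L → ∀ G : ℝ × ℝ → ℝ≥0∞, Measurable G →
    ∃ M : ℝ × ℝ → ℝ≥0∞, Measurable M ∧
      (∀ γ : ℝ, |γ| ≤ 3 → ∀ z' : ℝ × ℝ,
        ∫⁻ z, ENNReal.ofReal (Bk L γ (z - z')) * G z ≤ M z') ∧
      ∫⁻ z, M z ^ 2 ≤ ENNReal.ofReal (C * (1 + Real.log L) ^ 2) * ∫⁻ z, G z ^ 2

/-- vector valued bound for arcs with variable radii -/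
def VVA (ψ α β : ℝ → ℝ) (C : ℝ) : Prop :=
  ∀ L : ℝ, 20 ≤ L → ∀ (Z : Type) [MeasurableSpace Z] (ν : Measure Z) [IsFiniteMeasure ν]
    (r : Z → ℝ), Measurable r → (∀ ζ, 1 / 2 ≤ r ζ ∧ r ζ ≤ 1) → ∀ G : Z → ℝ × ℝ → ℂ, GoodF G →
      ∫⁻ z, (∫⁻ ζ, ‖Pl (mAr ψ α β L (r ζ)) (G ζ) z‖ₑ ^ 2 ∂ν) ^ 2 ≤
        ENNReal.ofReal (C * (1 + Real.log L) ^ 2) * ∫⁻ z, (∫⁻ ζ, ‖G ζ z‖ₑ ^ 2 ∂ν) ^ 2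

/-- vector valued bound for annuli with variable radii in `[1/2,1]` -/
def VVR (ψ : ℝ → ℝ) (C : ℝ) : Prop :=
  ∀ L : ℝ, 20 ≤ L → ∀ (Z : Type) [MeasurableSpace Z] (ν : Measure Z) [IsFiniteMeasure ν]
    (r : Z → ℝ), Measurable r → (∀ ζ, 1 / 2 ≤ r ζ ∧ r ζ ≤ 1) → ∀ G : Z → ℝ × ℝ → ℂ, GoodF G →
      ∫⁻ z, (∫⁻ ζ, ‖Pl (mV ψ L (r ζ ^ 2)) (G ζ) z‖ₑ ^ 2 ∂ν) ^ 2 ≤
        ENNReal.ofReal (C * (1 + Real.log L) ^ 2) * ∫⁻ z, (∫⁻ ζ, ‖G ζ z‖ₑ ^ 2 ∂ν) ^ 2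

/-- vector valued bound for small annuli -/
def VVS (ψ : ℝ → ℝ) (κ C : ℝ) : Prop :=
  ∀ L : ℝ, 1 ≤ L → ∀ (Z : Type) [MeasurableSpace Z] (ν : Measure Z) [IsFiniteMeasure ν]
    (v : Z → ℝ), Measurable v → (∀ ζ, v ζ ≤ κ / L ^ 2) → ∀ G : Z → ℝ × ℝ → ℂ, GoodF G →
      ∫⁻ z, (∫⁻ ζ, ‖Pl (mV ψ L (v ζ)) (G ζ) z‖ₑ ^ 2 ∂ν) ^ 2 ≤
        ENNReal.ofReal C * ∫⁻ z, (∫⁻ ζ, ‖G ζ z‖ₑ ^ 2 ∂ν) ^ 2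

/-- vector valued bound for all annuli inside the unit disc -/
def VV (ψ : ℝ → ℝ) (C : ℝ) : Prop :=
  ∀ L : ℝ, 20 ≤ L → ∀ (Z : Type) [MeasurableSpace Z] (ν : Measure Z) [IsFiniteMeasure ν]
    (v : Z → ℝ), Measurable v → (∀ ζ, v ζ ≤ 1) → ∀ G : Z → ℝ × ℝ → ℂ, GoodF G →
      ∫⁻ z, (∫⁻ ζ, ‖Pl (mV ψ L (v ζ)) (G ζ) z‖ₑ ^ 2 ∂ν) ^ 2 ≤
        ENNReal.ofReal (C * (1 + Real.log L) ^ 4) * ∫⁻ z, (∫⁻ ζ, ‖G ζ z‖ₑ ^ 2 ∂ν) ^ 2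

end Pool.Agent.TH278
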