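import Mathlib
import Pool.Agent.TH278.Defs
set_option autoImplicit false

/-! # Bochner-Riesz means of functions dominated by product functions: vertex bounds -/

namespace Pool.Agent.TH278

open MeasureTheory Set Complex
open scoped ENNReal RealInnerProductSpace
open Pool.Agent.H438R2.RZ (e Good ft Pl Bump TR)
open Pool.Agent.H789R2.FR (E)

/-- the bilinear form of the operator -/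
noncomputable def Bf {n : ℕ} (ψ : ℝ → ℝ) (L : ℝ) (f h : E n → ℂ) : ℂ :=
  ∫ x : E n, TR n (ML ψ L) f x * h x

/-- the vertex bounds for the bilinear form: `L^2`, one variable, two variables -/
structure VB (k : ℕ) (ψ : ℝ → ℝ) (L A₀ A₁ A₂ : ℝ) : Prop where
  pos₀ : 0 < A₀
  pos₁ : 0 < A₁
  pos₂ : 0 < A₂
  v0 : ∀ f h : E (k + 2) → ℂ, GoodN f → GoodN h →
    ‖Bf ψ L f h‖ₑ ≤ ENNReal.ofReal A₀ * (∫⁻ x, ‖f x‖ₑ ^ 2) ^ (1 / 2 : ℝ) *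
      (∫⁻ x, ‖h x‖ₑ ^ 2) ^ (1 / 2 : ℝ)
  v1 : ∀ f h : E (k + 2) → ℂ, GoodN f → GoodN h → ∀ i : Fin (k + 2),
    (∀ s : ℝ, ∫⁻ y : E (k + 1), ‖h (ins i s y)‖ₑ ^ 2 ≤ 1) →
    ‖Bf ψ L f h‖ₑ ≤ ENNReal.ofReal A₁ *
      ∫⁻ s : ℝ, (∫⁻ y : E (k + 1), ‖f (ins i s y)‖ₑ ^ 2) ^ (1 / 2 : ℝ)
  v2 : ∀ f h : E (k + 2) → ℂ, GoodN f → GoodN h →
    ‖Bf ψ L f h‖ₑ ≤ ENNReal.ofReal A₂ *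
      (∫⁻ z : ℝ × ℝ, (∫⁻ w : E k, ‖f (inp z w)‖ₑ ^ 2) ^ (2 / 3 : ℝ)) ^ (3 / 4 : ℝ) *
      (∫⁻ z : ℝ × ℝ, (∫⁻ w : E k, ‖h (inp z w)‖ₑ ^ 2) ^ 2) ^ (1 / 4 : ℝ)
  w1 : ∀ f h : E (k + 2) → ℂ, GoodN f → GoodN h → ∀ i : Fin (k + 2), ∀ a : ℝ → ℂ, Measurable a →
    (∀ s, ‖a s‖ ≤ 1) → (∃ B : ℝ, ∀ s, a s ≠ 0 → |s| ≤ B) → ∀ G : E (k + 1) → ℂ, GoodN G →
    (∀ s y, f (ins i s y) = a s * G y) →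
    ‖Bf ψ L f h‖ₑ ≤ ENNReal.ofReal A₁ * (∫⁻ y, ‖G y‖ₑ ^ 2) ^ (1 / 2 : ℝ) *
      (∫⁻ y : E (k + 1), (∫⁻ s : ℝ, ‖h (ins i s y)‖ₑ) ^ 2) ^ (1 / 2 : ℝ)
  w2 : ∀ f h : E (k + 2) → ℂ, GoodN f → GoodN h →
    ‖Bf ψ L f h‖ₑ ≤ ENNReal.ofReal A₂ *
      (∫⁻ z : ℝ × ℝ, (∫⁻ w : E k, ‖f (inp z w)‖ₑ ^ 2) ^ 2) ^ (1 / 4 : ℝ) *
      (∫⁻ z : ℝ × ℝ, (∫⁻ w : E k, ‖h (inp z w)‖ₑ ^ 2) ^ (2 / 3 : ℝ)) ^ (3 / 4 : ℝ)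

end Pool.Agent.TH278
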