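import Mathlib
import Pool.Agent.TH278.Defs2
set_option autoImplicit false

/-! # Bochner-Riesz means of functions dominated by product functions: core statements -/

namespace Pool.Agent.TH278

open MeasureTheory Set Complex
open scoped ENNReal RealInnerProductSpace
open Pool.Agent.H438R2.RZ (e Good ft Pl Bump TR)
open Pool.Agent.H789R2.FR (E)

/-- the cube -/
def Cube (n : ℕ) (B : ℝ) : Set (E n) := {x | ∀ i, |x i| ≤ B}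

/-- one annulus piece: bound on functions dominated by a product, normalised and regular data -/
def DomCore (k : ℕ) (ψ : ℝ → ℝ) (L p A : ℝ) : Prop :=
  ∀ B : ℝ, 0 < B → ∀ (g : ℝ × ℝ → ℝ) (φ : Fin k → ℝ → ℝ), Measurable g → (∀ i, Measurable (φ i)) →
    ∀ m M : ℝ, 0 < m → (∀ z, m ≤ g z ∧ g z ≤ M) → (∀ i s, m ≤ φ i s ∧ φ i s ≤ M) →
    ∫⁻ z in Icc (-B) B ×ˢ Icc (-B) B, ENNReal.ofReal (g z ^ p) ≤ 1 →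
    (∀ i, ∫⁻ s in Icc (-B) B, ENNReal.ofReal (φ i s ^ p) ≤ 1) →
    ∀ u : E (k + 2) → ℂ, Measurable u → (∀ x, ‖u x‖ ≤ 1) → (∀ x, u x ≠ 0 → x ∈ Cube (k + 2) B) →
    (∫⁻ x in Cube (k + 2) B, ‖TR (k + 2) (ML ψ L)
      (fun x => u x * ((g (x 0, x 1) * ∏ i : Fin k, φ i (x i.succ.succ) : ℝ) : ℂ)) x‖ₑ ^ p) ^ (1 / p) ≤
      ENNReal.ofReal A

/-- one annulus piece: bound on product functions, normalised and regular data -/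
def ProdCore (k : ℕ) (ψ : ℝ → ℝ) (L p A : ℝ) : Prop :=
  ∀ B : ℝ, 0 < B → ∀ (g : ℝ × ℝ → ℝ) (φ : Fin k → ℝ → ℝ), Measurable g → (∀ i, Measurable (φ i)) →
    ∀ m M : ℝ, 0 < m → (∀ z, m ≤ g z ∧ g z ≤ M) → (∀ i s, m ≤ φ i s ∧ φ i s ≤ M) →
    ∫⁻ z in Icc (-B) B ×ˢ Icc (-B) B, ENNReal.ofReal (g z ^ p) ≤ 1 →
    (∀ i, ∫⁻ s in Icc (-B) B, ENNReal.ofReal (φ i s ^ p) ≤ 1) →
    ∀ (u₀ : ℝ × ℝ → ℂ) (u : Fin k → ℝ → ℂ), Measurable u₀ → (∀ i, Measurable (u i)) →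
    (∀ z, ‖u₀ z‖ ≤ 1) → (∀ i s, ‖u i s‖ ≤ 1) → (∀ z, u₀ z ≠ 0 → |z.1| ≤ B ∧ |z.2| ≤ B) →
    (∀ i s, u i s ≠ 0 → |s| ≤ B) →
    (∫⁻ x in Cube (k + 2) B, ‖TR (k + 2) (ML ψ L)
      (fun x => (u₀ (x 0, x 1) * ∏ i : Fin k, u i (x i.succ.succ)) *
        ((g (x 0, x 1) * ∏ i : Fin k, φ i (x i.succ.succ) : ℝ) : ℂ)) x‖ₑ ^ p) ^ (1 / p) ≤
      ENNReal.ofReal A

/-- the Bochner-Riesz operator -/
noncomputable def BR {n : ℕ} (δ : ℝ) (f : E n → ℂ) (x : E n) : ℂ :=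
  ∫ ξ : E n, (((max (1 - ‖ξ‖ ^ 2) (0 : ℝ)) ^ δ : ℝ) : ℂ) *
    (∫ y : E n, e (-(⟪y, ξ⟫ : ℝ)) * f y) * e (⟪x, ξ⟫ : ℝ)

end Pool.Agent.TH278
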