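import Mathlib
import Pool.Agent.TH278.Defs
import Pool.Agent.H438R2.RZ.P4
import Pool.Agent.H438R2.RZ.P5
import Pool.Agent.H438R2.RZ.P8
set_option autoImplicit false

/-! # Vector valued bound for arcs with variable radii -/

namespace Pool.Agent.TH278.VVA1

open MeasureTheory Set Complex
open scoped ENNReal RealInnerProductSpace
open Pool.Agent.H438R2.RZ (e Good ft Pl Bump mA mC Arc Win sl SL Bk gA TR)
open Pool.Agent.H438R2.RZ (sq_pointwise win_exists theta_exists)
open Pool.Agent.H438R2.RZ.P8aux (cont_e norm_e cs cs_weight lint_w meas_Bk sum_sq_le good_integrable)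
open Pool.Agent.H438R2.RZ.P5aux (lint_Bk)
open Pool.Agent.H789R2.FR (E)

variable {Z : Type} [MeasurableSpace Z]

lemma jm_ft {G : Z → ℝ × ℝ → ℂ} (hG : Measurable (Function.uncurry G)) :
    Measurable (fun p : Z × (ℝ × ℝ) => ft (G p.1) p.2) := by
  have h : Measurable (fun p : (Z × (ℝ × ℝ)) × (ℝ × ℝ) =>
      e (-(p.2.1 * p.1.2.1 + p.2.2 * p.1.2.2)) * G p.1.1 p.2) := by
    refine Measurable.mul (cont_e.measurable.comp (by fun_prop)) ?_
    exact hG.comp ((measurable_fst.comp measurable_fst).prodMk measurable_snd)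
  exact h.stronglyMeasurable.integral_prod_right'.measurable

lemma jm_Pl' (G : Z → ℝ × ℝ → ℂ) (m : Z → ℝ × ℝ → ℂ)
    (ha : Measurable (fun p : (Z × (ℝ × ℝ)) × (ℝ × ℝ) => m p.1.1 p.2))
    (hb : Measurable (fun p : (Z × (ℝ × ℝ)) × (ℝ × ℝ) => ft (G p.1.1) p.2)) :
    Measurable (fun p : Z × (ℝ × ℝ) => Pl (m p.1) (G p.1) p.2) := by
  have hc : Measurable (fun p : (Z × (ℝ × ℝ)) × (ℝ × ℝ) =>
      e (p.1.2.1 * p.2.1 + p.1.2.2 * p.2.2)) := by
    refine cont_e.measurable.comp ?_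
    refine Measurable.add (Measurable.mul ?_ ?_) (Measurable.mul ?_ ?_)
    · exact measurable_fst.comp (measurable_snd.comp measurable_fst)
    · exact measurable_fst.comp measurable_snd
    · exact measurable_snd.comp (measurable_snd.comp measurable_fst)
    · exact measurable_snd.comp measurable_snd
  have h : Measurable (fun p : (Z × (ℝ × ℝ)) × (ℝ × ℝ) =>
      m p.1.1 p.2 * ft (G p.1.1) p.2 * e (p.1.2.1 * p.2.1 + p.1.2.2 * p.2.2)) :=
    (ha.mul hb).mul hc
  have h2 := (h.stronglyMeasurable.integral_prod_right' (ν := (volume : Measure (ℝ × ℝ)))).measurable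
  exact h2

lemma jm_Pl {G : Z → ℝ × ℝ → ℂ} (hG : Measurable (Function.uncurry G)) {m : Z → ℝ × ℝ → ℂ}
    (hm : Measurable (Function.uncurry m)) :
    Measurable (fun p : Z × (ℝ × ℝ) => Pl (m p.1) (G p.1) p.2) := by
  have hpr : Measurable (fun p : (Z × (ℝ × ℝ)) × (ℝ × ℝ) => ((p.1.1, p.2) : Z × (ℝ × ℝ))) :=
    (measurable_fst.comp measurable_fst).prodMk measurable_snd
  refine jm_Pl' G m ?_ ?_
  · have := hm.comp hpr
    exact this
  · have := (jm_ft hG).comp hpr
    exact this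

lemma jm_mA {ψ α β : ℝ → ℝ} (hψ : Bump ψ) (hab : Arc α β) (L : ℝ) {r : Z → ℝ} (hr : Measurable r) :
    Measurable (Function.uncurry fun ζ => mAr ψ α β L (r ζ)) := by
  have c1 := hψ.1.continuous.measurable
  have c2 := hab.1.continuous.measurable
  have c3 := hab.2.1.continuous.measurable
  unfold Function.uncurry mAr mA
  have hr' : Measurable (fun p : Z × (ℝ × ℝ) => r p.1) := hr.comp measurable_fst
  refine Complex.measurable_ofReal.comp ?_
  refine Measurable.mul (Measurable.mul (c2.comp ?_) (c3.comp ?_)) (c1.comp ?_)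
  · exact (measurable_fst.comp measurable_snd).div hr'
  · exact (measurable_snd.comp measurable_snd).div hr'
  · refine Measurable.mul ((measurable_const.mul hr').pow_const 2) (measurable_const.sub ?_)
    exact (((measurable_fst.comp measurable_snd).div hr').pow_const 2).add
      (((measurable_snd.comp measurable_snd).div hr').pow_const 2)

lemma jm_mC {ψ α β η : ℝ → ℝ} (hψ : Bump ψ) (hab : Arc α β) (hη : Win η) (L : ℝ) (a : ℤ)
    {r : Z → ℝ} (hr : Measurable r) :
    Measurable (Function.uncurry fun ζ => mCr ψ α β η L (r ζ) a) := by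
  have h1 := jm_mA hψ hab L hr
  have c4 := hη.1.continuous.measurable
  have hr' : Measurable (fun p : Z × (ℝ × ℝ) => r p.1) := hr.comp measurable_fst
  have h2 : Measurable (fun p : Z × (ℝ × ℝ) =>
      ((η ((L * r p.1) * (p.2.1 / r p.1) - a) : ℝ) : ℂ)) := by
    refine Complex.measurable_ofReal.comp (c4.comp ?_)
    exact ((measurable_const.mul hr').mul ((measurable_fst.comp measurable_snd).div hr')).sub_const _
  exact h2.mul h1

lemma jm_gA {θ : ℝ → ℝ} (hθ : Measurable θ) (L : ℝ) (a : ℤ) {G : Z → ℝ × ℝ → ℂ}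
    (hG : Measurable (Function.uncurry G)) :
    Measurable (fun p : Z × (ℝ × ℝ) => gA θ L a (G p.1) p.2) := by
  have h1 : Measurable (fun x : ℝ => ∫ u : ℝ, ((θ u : ℝ) : ℂ) * e (u * (x / L))) := by
    have h : Measurable (fun p : ℝ × ℝ => ((θ p.2 : ℝ) : ℂ) * e (p.2 * (p.1 / L))) := by
      refine Measurable.mul (Complex.measurable_ofReal.comp (hθ.comp measurable_snd))
        (cont_e.measurable.comp (by fun_prop))
    exact h.stronglyMeasurable.integral_prod_right'.measurable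
  have h : Measurable (fun p : (Z × (ℝ × ℝ)) × ℝ =>
      (∫ u : ℝ, ((θ u : ℝ) : ℂ) * e (u * (p.2 / L))) * ((1 / L : ℝ) : ℂ) *
        e ((a : ℝ) * p.2 / L) * G p.1.1 (p.1.2.1 - p.2, p.1.2.2)) := by
    refine Measurable.mul (Measurable.mul (Measurable.mul (h1.comp measurable_snd) measurable_const)
      (cont_e.measurable.comp (by fun_prop))) ?_
    have hpr : Measurable (fun p : (Z × (ℝ × ℝ)) × ℝ =>
        ((p.1.1, (p.1.2.1 - p.2, p.1.2.2)) : Z × (ℝ × ℝ))) := by fun_prop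
    exact hG.comp hpr
  exact h.stronglyMeasurable.integral_prod_right'.measurable

lemma goodF_good {G : Z → ℝ × ℝ → ℂ} (hG : GoodF G) (ζ : Z) : Good (G ζ) := by
  obtain ⟨h1, ⟨M, hM⟩, ⟨B, hB⟩⟩ := hG
  exact ⟨h1.comp (measurable_prodMk_left (x := ζ)), ⟨M, hM ζ⟩, B, hB ζ⟩

/-- averaging over horizontal segments, in `L^2` -/
lemma avg_L2 {L : ℝ} (hL : 0 < L) (H : ℝ × ℝ → ℝ≥0∞) (hH : Measurable H) :
    ∫⁻ z : ℝ × ℝ, (∫⁻ x : ℝ, ENNReal.ofReal (L / (L ^ 2 + x ^ 2)) * H (z.1 - x, z.2)) ^ 2 ≤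
      ENNReal.ofReal Real.pi ^ 2 * ∫⁻ z, H z ^ 2 := by
  set w : ℝ → ℝ≥0∞ := fun x => ENNReal.ofReal (L / (L ^ 2 + x ^ 2)) with hw
  have hwm : Measurable w := by
    rw [hw]
    fun_prop
  have hgm : Measurable (fun p : (ℝ × ℝ) × ℝ => H (p.1.1 - p.2, p.1.2)) := by
    refine hH.comp ?_
    fun_prop
  have h1 : ∀ z : ℝ × ℝ, (∫⁻ x : ℝ, w x * H (z.1 - x, z.2)) ^ 2 ≤
      ENNReal.ofReal Real.pi * ∫⁻ x : ℝ, w x * H (z.1 - x, z.2) ^ 2 := by
    intro z
    have h := cs_weight volume w (fun x => H (z.1 - x, z.2)) hwm (hgm.comp (measurable_prodMk_left (x := z)))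
    rw [lint_w L hL] at h
    exact h
  have hm : Measurable (fun p : (ℝ × ℝ) × ℝ => w p.2 * H (p.1.1 - p.2, p.1.2) ^ 2) :=
    (hwm.comp measurable_snd).mul (hgm.pow_const 2)
  have h2 : ∫⁻ z : ℝ × ℝ, ∫⁻ x : ℝ, w x * H (z.1 - x, z.2) ^ 2 =
      ENNReal.ofReal Real.pi * ∫⁻ z, H z ^ 2 := by
    rw [lintegral_lintegral_swap hm.aemeasurable]
    have h3 : ∀ x : ℝ, ∫⁻ z : ℝ × ℝ, w x * H (z.1 - x, z.2) ^ 2 = w x * ∫⁻ z, H z ^ 2 := by
      intro x
      have h4 : Measurable (fun z : ℝ × ℝ => H (z.1 - x, z.2) ^ 2) :=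
        (hgm.comp (measurable_prodMk_right (y := x))).pow_const 2
      rw [lintegral_const_mul _ h4]
      congr 1
      have h5 := lintegral_sub_right_eq_self (μ := (volume : Measure (ℝ × ℝ)))
        (fun z : ℝ × ℝ => H z ^ 2) ((x, 0) : ℝ × ℝ)
      rw [← h5]
      refine lintegral_congr fun z => ?_
      have h6 : z - ((x, 0) : ℝ × ℝ) = (z.1 - x, z.2) := by
        ext <;> simp
      rw [h6]
    simp only [h3]
    rw [lintegral_mul_const _ hwm, lint_w L hL]
  calc ∫⁻ z : ℝ × ℝ, (∫⁻ x : ℝ, w x * H (z.1 - x, z.2)) ^ 2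
      ≤ ∫⁻ z : ℝ × ℝ, ENNReal.ofReal Real.pi * ∫⁻ x : ℝ, w x * H (z.1 - x, z.2) ^ 2 :=
        lintegral_mono h1
    _ = ENNReal.ofReal Real.pi * (ENNReal.ofReal Real.pi * ∫⁻ z, H z ^ 2) := by
        rw [lintegral_const_mul _ hm.lintegral_prod_right', h2]
    _ = _ := by ring

/-- duality for one cap -/
lemma one_cap (b F gg S M : ℝ × ℝ → ℝ≥0∞) (C : ℝ≥0∞) (hb : Measurable b)
    (hg : Measurable gg) (hS : Measurable S) (hFG : ∀ z, F z ≤ C * ∫⁻ z', b (z - z') * gg z')
    (hM : ∀ z', ∫⁻ z, b (z - z') * S z ≤ M z') :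
    ∫⁻ z, F z * S z ≤ C * ∫⁻ z', gg z' * M z' := by
  have hIm : Measurable (fun z => ∫⁻ z', b (z - z') * gg z') := by
    have h : Measurable (fun p : (ℝ × ℝ) × (ℝ × ℝ) => b (p.1 - p.2) * gg p.2) :=
      (hb.comp (measurable_fst.sub measurable_snd)).mul (hg.comp measurable_snd)
    exact h.lintegral_prod_right'
  calc ∫⁻ z, F z * S z ≤ ∫⁻ z, C * ((∫⁻ z', b (z - z') * gg z') * S z) := by
        refine lintegral_mono fun z => ?_
        have := hFG z
        calc F z * S z ≤ (C * ∫⁻ z', b (z - z') * gg z') * S z := by gcongr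
          _ = _ := by ring
    _ = C * ∫⁻ z, (∫⁻ z', b (z - z') * gg z') * S z := lintegral_const_mul _ (hIm.mul hS)
    _ = C * ∫⁻ z, ∫⁻ z', b (z - z') * gg z' * S z := by
        congr 1
        refine lintegral_congr fun z => ?_
        rw [lintegral_mul_const]
        exact (hb.comp (measurable_const.sub measurable_id)).mul hg
    _ = C * ∫⁻ z', ∫⁻ z, b (z - z') * gg z' * S z := by
        congr 1
        refine lintegral_lintegral_swap (Measurable.aemeasurable ?_)
        exact ((hb.comp (measurable_fst.sub measurable_snd)).mul (hg.comp measurable_snd)).mul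
          (hS.comp measurable_fst)
    _ = C * ∫⁻ z', gg z' * ∫⁻ z, b (z - z') * S z := by
        congr 1
        refine lintegral_congr fun z' => ?_
        have hm : Measurable (fun z => b (z - z') * S z) :=
          (hb.comp (measurable_id.sub measurable_const)).mul hS
        rw [← lintegral_const_mul _ hm]
        refine lintegral_congr fun z => ?_
        ring
    _ ≤ C * ∫⁻ z', gg z' * M z' := by
        gcongr with z'
        exact hM z'

/-- convolution with a kernel, in `L^2` -/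
lemma conv_L2 (b gg : ℝ × ℝ → ℝ≥0∞) (hb : Measurable b) (hg : Measurable gg) :
    ∫⁻ z, (∫⁻ z', b (z - z') * gg z') ^ 2 ≤ (∫⁻ z, b z) ^ 2 * ∫⁻ z, gg z ^ 2 := by
  have h1 : ∀ z, (∫⁻ z', b (z - z') * gg z') ^ 2 ≤ (∫⁻ z, b z) * ∫⁻ z', b (z - z') * gg z' ^ 2 := by
    intro z
    have h := cs_weight volume (fun z' => b (z - z')) gg (hb.comp (measurable_const.sub measurable_id)) hg
    rw [lintegral_sub_left_eq_self (fun w : ℝ × ℝ => b w) z] at h
    exact h
  have hm : Measurable (fun p : (ℝ × ℝ) × (ℝ × ℝ) => b (p.1 - p.2) * gg p.2 ^ 2) :=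
    (hb.comp (measurable_fst.sub measurable_snd)).mul ((hg.comp measurable_snd).pow_const 2)
  calc ∫⁻ z, (∫⁻ z', b (z - z') * gg z') ^ 2
      ≤ ∫⁻ z, (∫⁻ z, b z) * ∫⁻ z', b (z - z') * gg z' ^ 2 := lintegral_mono h1
    _ = (∫⁻ z, b z) * ∫⁻ z, ∫⁻ z', b (z - z') * gg z' ^ 2 :=
        lintegral_const_mul _ hm.lintegral_prod_right'
    _ = (∫⁻ z, b z) * ∫⁻ z', ∫⁻ z, b (z - z') * gg z' ^ 2 := by
        congr 1
        exact lintegral_lintegral_swap hm.aemeasurable
    _ = (∫⁻ z, b z) * ∫⁻ z', (∫⁻ z, b z) * gg z' ^ 2 := by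
        congr 1
        refine lintegral_congr fun z' => ?_
        have hbm : Measurable (fun z : ℝ × ℝ => b (z - z')) :=
          hb.comp (measurable_id.sub measurable_const)
        rw [lintegral_mul_const _ hbm, lintegral_sub_right_eq_self (fun w : ℝ × ℝ => b w) z']
    _ = _ := by
        rw [lintegral_const_mul _ (hg.pow_const 2)]
        ring

end Pool.Agent.TH278.VVA1
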