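import Mathlib
import Pool.Agent.TH278.VVA1
set_option autoImplicit false

/-! # Vector valued bound for arcs with variable radii, main part -/

namespace Pool.Agent.TH278

open MeasureTheory Set Complex
open scoped ENNReal RealInnerProductSpace
open Pool.Agent.H438R2.RZ (e Good ft Pl Bump mA mC Arc Win sl SL Bk gA TR)
open Pool.Agent.H438R2.RZ (sq_pointwise win_exists theta_exists)
open Pool.Agent.H438R2.RZ.P8aux (cont_e norm_e cs cs_weight lint_w meas_Bk sum_sq_le good_integrable)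
open Pool.Agent.H438R2.RZ.P5aux (lint_Bk)
open Pool.Agent.H789R2.FR (E)

namespace VVA2

open VVA1

lemma mem_SL {L : ℝ} {a : ℤ} : a ∈ SL L ↔ |(a : ℝ)| ≤ 9 / 10 * L := by
  unfold SL
  rw [Finset.mem_Icc, abs_le]
  constructor
  · rintro ⟨h1, h2⟩
    have f := Int.floor_le (9 / 10 * L)
    have h3 : ((-⌊9 / 10 * L⌋ : ℤ) : ℝ) ≤ a := by exact_mod_cast h1
    have h4 : (a : ℝ) ≤ ((⌊9 / 10 * L⌋ : ℤ) : ℝ) := by exact_mod_cast h2
    push_cast at h3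
    constructor <;> linarith
  · rintro ⟨h1, h2⟩
    constructor
    · have : -a ≤ ⌊9 / 10 * L⌋ := Int.le_floor.2 (by push_cast; linarith)
      omega
    · exact Int.le_floor.2 h2

lemma sl_le {L : ℝ} (hL : 0 < L) {a : ℤ} (h1 : |(a:ℝ)| ≤ 9 / 10 * L) : |sl L a| ≤ 3 := by
  set u := (a:ℝ) / L with hu
  have hu1 : |u| ≤ 9 / 10 := by
    rw [hu, abs_div, abs_of_pos hL, div_le_iff₀ hL]
    exact h1
  have hu2 : u ^ 2 ≤ 81 / 100 := by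
    rw [← sq_abs]
    nlinarith [abs_nonneg u]
  have h3 : (3:ℝ) / 10 ≤ Real.sqrt (1 - u ^ 2) := by
    apply Real.le_sqrt_of_sq_le
    linarith
  unfold sl
  rw [← hu, abs_div, abs_neg, abs_of_pos (by linarith : 0 < Real.sqrt (1 - u ^ 2)),
    div_le_iff₀ (by linarith)]
  linarith

variable {Z : Type} [MeasurableSpace Z]

lemma expand_sq (ν : Measure Z) [IsFiniteMeasure ν] (U : Z → ℝ × ℝ → ℝ≥0∞)
    (hU : Measurable (Function.uncurry U)) :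
    ∫⁻ z, (∫⁻ ζ, U ζ z ∂ν) ^ 2 = ∫⁻ ζ, (∫⁻ ζ', (∫⁻ z, U ζ z * U ζ' z) ∂ν) ∂ν := by
  have hUz : ∀ z, Measurable fun ζ => U ζ z := fun z => hU.comp (measurable_prodMk_right (y := z))
  have m3 : Measurable (fun p : (ℝ × ℝ) × (Z × Z) => U p.2.1 p.1 * U p.2.2 p.1) := by
    have q1 : Measurable (fun p : (ℝ × ℝ) × (Z × Z) => ((p.2.1, p.1) : Z × (ℝ × ℝ))) :=
      (measurable_fst.comp measurable_snd).prodMk measurable_fst
    have q2 : Measurable (fun p : (ℝ × ℝ) × (Z × Z) => ((p.2.2, p.1) : Z × (ℝ × ℝ))) :=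
      (measurable_snd.comp measurable_snd).prodMk measurable_fst
    exact (hU.comp q1).mul (hU.comp q2)
  calc ∫⁻ z, (∫⁻ ζ, U ζ z ∂ν) ^ 2 = ∫⁻ z, ∫⁻ ζ, ∫⁻ ζ', U ζ z * U ζ' z ∂ν ∂ν := by
        refine lintegral_congr fun z => ?_
        rw [sq, ← lintegral_mul_const _ (hUz z)]
        refine lintegral_congr fun ζ => ?_
        rw [← lintegral_const_mul _ (hUz z)]
    _ = ∫⁻ z, ∫⁻ q : Z × Z, U q.1 z * U q.2 z ∂(ν.prod ν) := by
        refine lintegral_congr fun z => ?_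
        rw [lintegral_prod]
        exact (((hUz z).comp measurable_fst).mul ((hUz z).comp measurable_snd)).aemeasurable
    _ = ∫⁻ q : Z × Z, (∫⁻ z, U q.1 z * U q.2 z) ∂(ν.prod ν) :=
        lintegral_lintegral_swap m3.aemeasurable
    _ = _ := by
        rw [lintegral_prod]
        have m4 : Measurable (fun p : (Z × Z) × (ℝ × ℝ) => U p.1.1 p.2 * U p.1.2 p.2) :=
          m3.comp measurable_swap
        exact m4.lintegral_prod_right'.aemeasurable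

lemma swapS (ν : Measure Z) [IsFiniteMeasure ν] (U : Z → ℝ × ℝ → ℝ≥0∞) (V : ℝ × ℝ → ℝ≥0∞)
    (hU : Measurable (Function.uncurry U)) (hV : Measurable V) :
    ∫⁻ z, (∫⁻ ζ, U ζ z ∂ν) * V z = ∫⁻ ζ, (∫⁻ z, U ζ z * V z) ∂ν := by
  have hUz : ∀ z, Measurable fun ζ => U ζ z := fun z => hU.comp (measurable_prodMk_right (y := z))
  have h1 : ∀ z, (∫⁻ ζ, U ζ z ∂ν) * V z = ∫⁻ ζ, U ζ z * V z ∂ν := fun z => by
    rw [lintegral_mul_const _ (hUz z)]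
  simp only [h1]
  refine lintegral_lintegral_swap (Measurable.aemeasurable ?_)
  exact (hU.comp measurable_swap).mul (hV.comp measurable_fst)

lemma meas_sum (N : Finset ℤ) (F : ℤ → Z → ℝ × ℝ → ℝ≥0∞)
    (hF : ∀ a, Measurable (Function.uncurry (F a))) :
    Measurable (Function.uncurry fun ζ z => ∑ a ∈ N, F a ζ z) :=
  Finset.measurable_sum N fun a _ => hF a

/-- the abstract argument -/
theorem VV_abs (ν : Measure Z) [IsFiniteMeasure ν] (N : Finset ℤ) (L : ℝ) (hL : 0 < L)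
    (A H : Z → ℝ × ℝ → ℝ≥0∞) (F gg : ℤ → Z → ℝ × ℝ → ℝ≥0∞) (M : ℝ × ℝ → ℝ≥0∞)
    (c1 c2 c3 c4 cb Y₀ : ℝ≥0∞) (hA : Measurable (Function.uncurry A))
    (hH : Measurable (Function.uncurry H)) (hF : ∀ a, Measurable (Function.uncurry (F a)))
    (hgg : ∀ a, Measurable (Function.uncurry (gg a))) (hM : Measurable M) (hc1 : c1 ≠ ⊤)
    (hc2 : c2 ≠ ⊤) (hc4 : c4 ≠ ⊤) (hcb : cb ≠ ⊤) (hY₀ : Y₀ ≠ ⊤)
    (orth : ∀ ζ ζ', ∫⁻ z, A ζ z * A ζ' z ≤ c1 * ∫⁻ z, (∑ a ∈ N, F a ζ z) * (∑ b ∈ N, F b ζ' z))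
    (cap : ∀ a ζ, ∃ b : ℝ × ℝ → ℝ≥0∞, Measurable b ∧ (∫⁻ z, b z) ≤ cb ∧
      (∀ z, F a ζ z ≤ c2 * ∫⁻ z', b (z - z') * gg a ζ z') ∧
      (∀ z', ∫⁻ z, b (z - z') * (∫⁻ ζ, ∑ a ∈ N, F a ζ z ∂ν) ≤ M z'))
    (sqf : ∀ ζ z, ∑ a ∈ N, gg a ζ z ≤ c4 * ∫⁻ x : ℝ,
      ENNReal.ofReal (L / (L ^ 2 + x ^ 2)) * H ζ (z.1 - x, z.2))
    (unif : ∀ ζ, ∫⁻ z, H ζ z ^ 2 ≤ Y₀)
    (hM2 : ∫⁻ z, M z ^ 2 ≤ c3 * ∫⁻ z, (∫⁻ ζ, ∑ a ∈ N, F a ζ z ∂ν) ^ 2) :
    ∫⁻ z, (∫⁻ ζ, A ζ z ∂ν) ^ 2 ≤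
      c1 * (c2 ^ 2 * (c4 ^ 2 * ENNReal.ofReal Real.pi ^ 2) * c3 * ∫⁻ z, (∫⁻ ζ, H ζ z ∂ν) ^ 2) := by
  set S : ℝ × ℝ → ℝ≥0∞ := fun z => ∫⁻ ζ, ∑ a ∈ N, F a ζ z ∂ν with hS
  have hSumm := meas_sum N F hF
  have hSm : Measurable S := hSumm.lintegral_prod_left'
  have step1 : ∫⁻ z, (∫⁻ ζ, A ζ z ∂ν) ^ 2 ≤ c1 * ∫⁻ z, S z ^ 2 := by
    rw [expand_sq ν A hA, hS, expand_sq ν (fun ζ z => ∑ a ∈ N, F a ζ z) hSumm]
    rw [← lintegral_const_mul' _ _ hc1]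
    refine lintegral_mono fun ζ => ?_
    rw [← lintegral_const_mul' _ _ hc1]
    exact lintegral_mono fun ζ' => orth ζ ζ'
  have step2a : ∀ (a : ℤ) (ζ : Z), ∫⁻ z, F a ζ z * S z ≤ c2 * ∫⁻ z, gg a ζ z * M z := by
    intro a ζ
    obtain ⟨b, hb, _, hb1, hb2⟩ := cap a ζ
    exact one_cap b (F a ζ) (gg a ζ) S M c2 hb ((hgg a).comp (measurable_prodMk_left (x := ζ))) hSm
      hb1 hb2
  set Q : ℝ × ℝ → ℝ≥0∞ := fun z => ∫⁻ ζ, ∑ a ∈ N, gg a ζ z ∂ν with hQ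
  have hgsum := meas_sum N gg hgg
  have hQm : Measurable Q := hgsum.lintegral_prod_left'
  have step2 : ∫⁻ z, S z ^ 2 ≤ c2 * ∫⁻ z, Q z * M z := by
    calc ∫⁻ z, S z ^ 2 = ∫⁻ z, (∫⁻ ζ, ∑ a ∈ N, F a ζ z ∂ν) * S z := by
          refine lintegral_congr fun z => ?_
          rw [sq]
      _ = ∫⁻ ζ, (∫⁻ z, (∑ a ∈ N, F a ζ z) * S z) ∂ν := swapS ν _ S hSumm hSm
      _ = ∫⁻ ζ, (∑ a ∈ N, ∫⁻ z, F a ζ z * S z) ∂ν := by
          refine lintegral_congr fun ζ => ?_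
          rw [← lintegral_finsetSum]
          · refine lintegral_congr fun z => ?_
            rw [Finset.sum_mul]
          · intro a _
            exact ((hF a).comp (measurable_prodMk_left (x := ζ))).mul hSm
      _ ≤ ∫⁻ ζ, (∑ a ∈ N, c2 * ∫⁻ z, gg a ζ z * M z) ∂ν := by
          refine lintegral_mono fun ζ => Finset.sum_le_sum fun a _ => step2a a ζ
      _ = c2 * ∫⁻ ζ, (∫⁻ z, (∑ a ∈ N, gg a ζ z) * M z) ∂ν := by
          rw [← lintegral_const_mul' _ _ hc2]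
          refine lintegral_congr fun ζ => ?_
          rw [← Finset.mul_sum, ← lintegral_finsetSum]
          · congr 1
            refine lintegral_congr fun z => ?_
            rw [Finset.sum_mul]
          · intro a _
            exact ((hgg a).comp (measurable_prodMk_left (x := ζ))).mul hM
      _ = c2 * ∫⁻ z, Q z * M z := by
          rw [swapS ν _ M hgsum hM]
  set Hd : ℝ × ℝ → ℝ≥0∞ := fun z => ∫⁻ ζ, H ζ z ∂ν with hHd
  have hHdm : Measurable Hd := hH.lintegral_prod_left'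
  have hQle : ∀ z, Q z ≤ c4 * ∫⁻ x : ℝ,
      ENNReal.ofReal (L / (L ^ 2 + x ^ 2)) * Hd (z.1 - x, z.2) := by
    intro z
    calc Q z ≤ ∫⁻ ζ, (c4 * ∫⁻ x : ℝ,
          ENNReal.ofReal (L / (L ^ 2 + x ^ 2)) * H ζ (z.1 - x, z.2)) ∂ν :=
          lintegral_mono fun ζ => sqf ζ z
      _ = c4 * ∫⁻ ζ, (∫⁻ x : ℝ,
          ENNReal.ofReal (L / (L ^ 2 + x ^ 2)) * H ζ (z.1 - x, z.2)) ∂ν :=
          lintegral_const_mul' _ _ hc4
      _ = c4 * ∫⁻ x : ℝ, ∫⁻ ζ,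
          ENNReal.ofReal (L / (L ^ 2 + x ^ 2)) * H ζ (z.1 - x, z.2) ∂ν := by
          congr 1
          refine lintegral_lintegral_swap (Measurable.aemeasurable ?_)
          have q : Measurable (fun p : Z × ℝ => ((p.1, (z.1 - p.2, z.2)) : Z × (ℝ × ℝ))) :=
            measurable_fst.prodMk ((measurable_const.sub measurable_snd).prodMk measurable_const)
          have q2 : Measurable (fun p : Z × ℝ => ENNReal.ofReal (L / (L ^ 2 + p.2 ^ 2))) := by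
            refine Measurable.ennreal_ofReal ?_
            exact measurable_const.div (measurable_const.add (measurable_snd.pow_const 2))
          exact q2.mul (hH.comp q)
      _ = _ := by
          congr 1
          refine lintegral_congr fun x => ?_
          rw [lintegral_const_mul' _ _ ENNReal.ofReal_ne_top]
  have hQ2 : ∫⁻ z, Q z ^ 2 ≤ c4 ^ 2 * (ENNReal.ofReal Real.pi ^ 2 * ∫⁻ z, Hd z ^ 2) := by
    calc ∫⁻ z, Q z ^ 2 ≤ ∫⁻ z : ℝ × ℝ, c4 ^ 2 * (∫⁻ x : ℝ,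
          ENNReal.ofReal (L / (L ^ 2 + x ^ 2)) * Hd (z.1 - x, z.2)) ^ 2 := by
          refine lintegral_mono fun z => ?_
          rw [← mul_pow]
          exact pow_le_pow_left' (hQle z) 2
      _ = c4 ^ 2 * ∫⁻ z : ℝ × ℝ, (∫⁻ x : ℝ,
          ENNReal.ofReal (L / (L ^ 2 + x ^ 2)) * Hd (z.1 - x, z.2)) ^ 2 :=
          lintegral_const_mul' _ _ (ENNReal.pow_ne_top hc4)
      _ ≤ _ := by
          gcongr
          exact avg_L2 hL Hd hHdm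
  have hfin : ∫⁻ z, S z ^ 2 ≠ ⊤ := by
    have hggY : ∀ a ∈ N, ∀ ζ, ∫⁻ z, gg a ζ z ^ 2 ≤
        c4 ^ 2 * (ENNReal.ofReal Real.pi ^ 2 * Y₀) := by
      intro a ha ζ
      have hHζ : Measurable (fun z => H ζ z) := hH.comp (measurable_prodMk_left (x := ζ))
      calc ∫⁻ z, gg a ζ z ^ 2 ≤ ∫⁻ z : ℝ × ℝ, c4 ^ 2 * (∫⁻ x : ℝ,
            ENNReal.ofReal (L / (L ^ 2 + x ^ 2)) * H ζ (z.1 - x, z.2)) ^ 2 := by
            refine lintegral_mono fun z => ?_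
            rw [← mul_pow]
            refine pow_le_pow_left' (le_trans ?_ (sqf ζ z)) 2
            exact Finset.single_le_sum (f := fun a => gg a ζ z) (fun _ _ => zero_le) ha
        _ = c4 ^ 2 * ∫⁻ z : ℝ × ℝ, (∫⁻ x : ℝ,
            ENNReal.ofReal (L / (L ^ 2 + x ^ 2)) * H ζ (z.1 - x, z.2)) ^ 2 :=
            lintegral_const_mul' _ _ (ENNReal.pow_ne_top hc4)
        _ ≤ c4 ^ 2 * (ENNReal.ofReal Real.pi ^ 2 * ∫⁻ z, H ζ z ^ 2) := by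
            gcongr
            exact avg_L2 hL (H ζ) hHζ
        _ ≤ _ := by
            gcongr
            exact unif ζ
    set W : ℝ≥0∞ := c2 ^ 2 * (cb ^ 2 * (c4 ^ 2 * (ENNReal.ofReal Real.pi ^ 2 * Y₀))) with hW
    have hWfin : W ≠ ⊤ := by
      rw [hW]
      refine ENNReal.mul_ne_top (ENNReal.pow_ne_top hc2) ?_
      refine ENNReal.mul_ne_top (ENNReal.pow_ne_top hcb) ?_
      refine ENNReal.mul_ne_top (ENNReal.pow_ne_top hc4) ?_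
      exact ENNReal.mul_ne_top (ENNReal.pow_ne_top ENNReal.ofReal_ne_top) hY₀
    have hFW : ∀ a ∈ N, ∀ ζ, ∫⁻ z, F a ζ z ^ 2 ≤ W := by
      intro a ha ζ
      obtain ⟨b, hb, hb0, hb1, _⟩ := cap a ζ
      have hgm : Measurable (gg a ζ) := (hgg a).comp (measurable_prodMk_left (x := ζ))
      calc ∫⁻ z, F a ζ z ^ 2 ≤ ∫⁻ z : ℝ × ℝ, c2 ^ 2 *
            (∫⁻ z', b (z - z') * gg a ζ z') ^ 2 := by
            refine lintegral_mono fun z => ?_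
            rw [← mul_pow]
            exact pow_le_pow_left' (hb1 z) 2
        _ = c2 ^ 2 * ∫⁻ z : ℝ × ℝ, (∫⁻ z', b (z - z') * gg a ζ z') ^ 2 :=
            lintegral_const_mul' _ _ (ENNReal.pow_ne_top hc2)
        _ ≤ c2 ^ 2 * ((∫⁻ z, b z) ^ 2 * ∫⁻ z, gg a ζ z ^ 2) := by
            gcongr
            exact conv_L2 _ (gg a ζ) hb hgm
        _ ≤ W := by
            rw [hW]
            gcongr
            exact hggY a ha ζ
    have hS2 : ∀ z, S z ^ 2 ≤ ν univ * ((N.card : ℝ≥0∞) * ∫⁻ ζ, ∑ a ∈ N, F a ζ z ^ 2 ∂ν) := by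
      intro z
      have hz : Measurable (fun ζ => ∑ a ∈ N, F a ζ z) := hSumm.comp (measurable_prodMk_right (y := z))
      have h1 := cs ν (fun _ => 1) (fun ζ => ∑ a ∈ N, F a ζ z) measurable_const hz
      simp only [one_mul, one_pow, lintegral_const] at h1
      refine h1.trans ?_
      gcongr
      rw [← lintegral_const_mul' _ _ (ENNReal.natCast_ne_top _)]
      exact lintegral_mono fun ζ => sum_sq_le _ _
    refine ne_top_of_le_ne_top ?_ (lintegral_mono hS2)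
    have hF2m : Measurable (Function.uncurry fun (ζ : Z) (z : ℝ × ℝ) => ∑ a ∈ N, F a ζ z ^ 2) :=
      Finset.measurable_sum N fun a _ => (hF a).pow_const 2
    rw [lintegral_const_mul' _ _ (measure_ne_top ν univ),
      lintegral_const_mul' _ _ (ENNReal.natCast_ne_top _)]
    refine ENNReal.mul_ne_top (measure_ne_top ν univ) (ENNReal.mul_ne_top (ENNReal.natCast_ne_top _) ?_)
    have hsw : ∫⁻ z, ∫⁻ ζ, ∑ a ∈ N, F a ζ z ^ 2 ∂ν = ∫⁻ ζ, (∫⁻ z, ∑ a ∈ N, F a ζ z ^ 2) ∂ν :=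
      lintegral_lintegral_swap (hF2m.comp measurable_swap).aemeasurable
    rw [hsw]
    have hb : ∀ ζ, ∫⁻ z, ∑ a ∈ N, F a ζ z ^ 2 ≤ (N.card : ℝ≥0∞) * W := by
      intro ζ
      have hFz : ∀ a ∈ N, Measurable fun z => F a ζ z ^ 2 := fun a _ =>
        ((hF a).comp (measurable_prodMk_left (x := ζ))).pow_const 2
      rw [lintegral_finsetSum _ hFz]
      refine (Finset.sum_le_sum fun a ha => hFW a ha ζ).trans (le_of_eq ?_)
      rw [Finset.sum_const, nsmul_eq_mul]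
    refine ne_top_of_le_ne_top ?_ (lintegral_mono hb)
    rw [lintegral_const]
    exact ENNReal.mul_ne_top (ENNReal.mul_ne_top (ENNReal.natCast_ne_top _) hWfin)
      (measure_ne_top ν univ)
  set X := ∫⁻ z, S z ^ 2 with hX
  set Y := ∫⁻ z, Hd z ^ 2 with hY
  have hCS := cs volume Q M hQm hM
  set K : ℝ≥0∞ := c2 ^ 2 * (c4 ^ 2 * ENNReal.ofReal Real.pi ^ 2) * c3 with hK
  have hXX : X * X ≤ K * Y * X := by
    calc X * X = X ^ 2 := (sq X).symm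
      _ ≤ (c2 * ∫⁻ z', Q z' * M z') ^ 2 := by gcongr
      _ = c2 ^ 2 * (∫⁻ z', Q z' * M z') ^ 2 := by rw [mul_pow]
      _ ≤ c2 ^ 2 * ((∫⁻ z', Q z' ^ 2) * ∫⁻ z', M z' ^ 2) := by gcongr
      _ ≤ c2 ^ 2 * ((c4 ^ 2 * (ENNReal.ofReal Real.pi ^ 2 * Y)) * (c3 * X)) := by gcongr
      _ = K * Y * X := by
          rw [hK]
          ring
  have hXY : X ≤ K * Y := by
    by_cases h0 : X = 0
    · rw [h0]
      exact zero_le
    · exact (ENNReal.mul_le_mul_iff_left h0 hfin).mp hXX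
  calc ∫⁻ z, (∫⁻ ζ, A ζ z ∂ν) ^ 2 ≤ c1 * X := step1
    _ ≤ c1 * (K * Y) := by gcongr

end VVA2

open VVA1 VVA2

/-- vector valued bound for arcs -/
theorem VVA_of (ψ α β : ℝ → ℝ) (hψ : Bump ψ) (hab : Arc α β)
    (hkak : ∃ C : ℝ, 0 < C ∧ KakM C)
    (horth : ∀ η : ℝ → ℝ, Win η → (∀ x : ℝ, HasSum (fun a : ℤ => η (x - a)) 1) →
      ∃ C : ℝ, 0 < C ∧ Orth2 ψ α β η C)
    (hcap : ∀ η θ : ℝ → ℝ, Win η → ContDiff ℝ (⊤ : ℕ∞) θ → (∀ x, θ x ≠ 0 → |x| ≤ 2) →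
      (∀ x, |x| ≤ 1 → θ x = 1) → ∃ C : ℝ, 0 < C ∧ CapConv ψ α β η θ C) :
    ∃ C : ℝ, 0 < C ∧ VVA ψ α β C := by
  obtain ⟨η, hη, hsum⟩ := win_exists
  obtain ⟨θ, hθ, hθs, hθ1⟩ := theta_exists
  obtain ⟨C1, hC1, H1⟩ := horth η hη hsum
  obtain ⟨C2, hC2, H2⟩ := hcap η θ hη hθ hθs hθ1
  obtain ⟨C3, hC3, H3⟩ := hkak
  obtain ⟨C4, hC4, H4⟩ := sq_pointwise θ hθ hθs
  refine ⟨C1 * (C2 ^ 2 * (C4 ^ 2 * Real.pi ^ 2) * C3), by positivity, ?_⟩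
  intro L hL Z _ ν _ r hr hr1 G hG
  have hL0 : 0 < L := by linarith
  have hrpos : ∀ ζ, 0 < r ζ := fun ζ => by linarith [(hr1 ζ).1]
  have hGm := hG.1
  have hGood : ∀ ζ, Good (G ζ) := goodF_good hG
  have hsetm : ∀ a : ℤ, MeasurableSet {ζ : Z | |(a : ℝ)| ≤ 9 / 10 * (L * r ζ)} := fun a =>
    measurableSet_le measurable_const ((hr.const_mul L).const_mul _)
  have hAm : Measurable (Function.uncurry fun (ζ : Z) (z : ℝ × ℝ) =>
      ‖Pl (mAr ψ α β L (r ζ)) (G ζ) z‖ₑ ^ 2) := (jm_Pl hGm (jm_mA hψ hab L hr)).enorm.pow_const 2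
  have hF0 : ∀ a : ℤ, Measurable (Function.uncurry fun (ζ : Z) (z : ℝ × ℝ) =>
      ‖Pl (mCr ψ α β η L (r ζ) a) (G ζ) z‖ₑ ^ 2) := fun a =>
    (jm_Pl hGm (jm_mC hψ hab hη L a hr)).enorm.pow_const 2
  have hg0 : ∀ a : ℤ, Measurable (Function.uncurry fun (ζ : Z) (z : ℝ × ℝ) =>
      ‖gA θ L a (G ζ) z‖ₑ ^ 2) := fun a =>
    (jm_gA hθ.continuous.measurable L a hGm).enorm.pow_const 2
  have hGe : Measurable (Function.uncurry fun (ζ : Z) (z : ℝ × ℝ) => ‖G ζ z‖ₑ ^ 2) :=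
    hGm.enorm.pow_const 2
  have h1 : ∀ ζ ζ', ∫⁻ z, ‖Pl (mAr ψ α β L (r ζ)) (G ζ) z‖ₑ ^ 2 *
      ‖Pl (mAr ψ α β L (r ζ')) (G ζ') z‖ₑ ^ 2 ≤ ENNReal.ofReal C1 *
      ∫⁻ z, (∑ a ∈ SL (L * r ζ), ‖Pl (mCr ψ α β η L (r ζ) a) (G ζ) z‖ₑ ^ 2) *
        (∑ a ∈ SL (L * r ζ'), ‖Pl (mCr ψ α β η L (r ζ') a) (G ζ') z‖ₑ ^ 2) := fun ζ ζ' =>
    H1 L hL (r ζ) (r ζ') (hr1 ζ).1 (hr1 ζ).2 (hr1 ζ').1 (hr1 ζ').2 (G ζ) (G ζ')
      (hGood ζ) (hGood ζ')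
  have h2 : ∀ (a : ℤ) (ζ : Z), |(a : ℝ)| ≤ 9 / 10 * (L * r ζ) → ∀ z,
      ‖Pl (mCr ψ α β η L (r ζ) a) (G ζ) z‖ₑ ^ 2 ≤ ENNReal.ofReal C2 *
        ∫⁻ z', ENNReal.ofReal (Bk L (sl (L * r ζ) a) (z - z')) * ‖gA θ L a (G ζ) z'‖ₑ ^ 2 :=
    fun a ζ ha z => H2 L hL (r ζ) (hr1 ζ).1 (hr1 ζ).2 a ha (G ζ) (hGood ζ) z
  have h4 : ∀ ζ (z : ℝ × ℝ), ∑ a ∈ SL L, ‖gA θ L a (G ζ) z‖ₑ ^ 2 ≤ ENNReal.ofReal C4 * ∫⁻ x : ℝ,
      ENNReal.ofReal (L / (L ^ 2 + x ^ 2)) * ‖G ζ (z.1 - x, z.2)‖ₑ ^ 2 := fun ζ z =>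
    H4 L (by linarith) (G ζ) (hGood ζ) (SL L) z
  obtain ⟨Mg, hMg⟩ := hG.2.1
  obtain ⟨B, hB⟩ := hG.2.2
  have hGY : ∃ Y : ℝ≥0∞, Y ≠ ⊤ ∧ ∀ ζ, ∫⁻ z, (‖G ζ z‖ₑ ^ 2) ^ 2 ≤ Y := by
    refine ⟨∫⁻ z : ℝ × ℝ, (Icc (-B) B ×ˢ Icc (-B) B).indicator
      (fun _ => ENNReal.ofReal Mg ^ 4) z, ?_, ?_⟩
    · rw [lintegral_indicator (measurableSet_Icc.prod measurableSet_Icc), setLIntegral_const]
      refine ENNReal.mul_ne_top (ENNReal.pow_ne_top ENNReal.ofReal_ne_top) ?_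
      exact (isCompact_Icc.prod isCompact_Icc).measure_lt_top.ne
    · intro ζ
      refine lintegral_mono fun z => ?_
      by_cases hz : G ζ z = 0
      · rw [hz]; simp
      · have h1 := hB ζ z hz
        have h2 : z ∈ (Icc (-B) B ×ˢ Icc (-B) B : Set (ℝ × ℝ)) :=
          ⟨⟨(abs_le.mp h1.1).1, (abs_le.mp h1.1).2⟩, ⟨(abs_le.mp h1.2).1, (abs_le.mp h1.2).2⟩⟩
        rw [indicator_of_mem h2, ← pow_mul]
        have h3 : ‖G ζ z‖ₑ ≤ ENNReal.ofReal Mg := by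
          rw [← ofReal_norm]
          exact ENNReal.ofReal_le_ofReal (hMg ζ z)
        exact pow_le_pow_left' h3 4
  obtain ⟨Y₀, hY₀, hGY⟩ := hGY
  -- the maximal function
  set F : ℤ → Z → ℝ × ℝ → ℝ≥0∞ := fun a ζ z =>
    if |(a : ℝ)| ≤ 9 / 10 * (L * r ζ) then ‖Pl (mCr ψ α β η L (r ζ) a) (G ζ) z‖ₑ ^ 2 else 0 with hF
  have hFm : ∀ a, Measurable (Function.uncurry (F a)) := fun a =>
    Measurable.ite ((hsetm a).preimage measurable_fst) (hF0 a) measurable_const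
  set gg : ℤ → Z → ℝ × ℝ → ℝ≥0∞ := fun a ζ z =>
    if |(a : ℝ)| ≤ 9 / 10 * (L * r ζ) then ‖gA θ L a (G ζ) z‖ₑ ^ 2 else 0 with hgg
  have hggm : ∀ a, Measurable (Function.uncurry (gg a)) := fun a =>
    Measurable.ite ((hsetm a).preimage measurable_fst) (hg0 a) measurable_const
  have hFsum : ∀ ζ z, ∑ a ∈ SL (L * r ζ), ‖Pl (mCr ψ α β η L (r ζ) a) (G ζ) z‖ₑ ^ 2 =
      ∑ a ∈ SL L, F a ζ z := by
    intro ζ z
    have hsub : SL (L * r ζ) ⊆ SL L := by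
      intro a ha
      rw [mem_SL]
      rw [mem_SL] at ha
      refine ha.trans ?_
      have := (hr1 ζ).2
      nlinarith
    have h1 : ∑ a ∈ SL (L * r ζ), ‖Pl (mCr ψ α β η L (r ζ) a) (G ζ) z‖ₑ ^ 2 =
        ∑ a ∈ SL (L * r ζ), F a ζ z := by
      refine Finset.sum_congr rfl fun a ha => ?_
      rw [mem_SL] at ha
      exact (if_pos ha).symm
    rw [h1]
    refine Finset.sum_subset hsub fun a _ ha => ?_
    rw [mem_SL] at ha
    exact if_neg ha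
  have hSm : Measurable fun z => ∫⁻ ζ, ∑ a ∈ SL L, F a ζ z ∂ν :=
    (meas_sum (SL L) F hFm).lintegral_prod_left'
  obtain ⟨M, hMm, hM1, hM2⟩ := H3 L (by linarith) _ hSm
  have key := VV_abs ν (SL L) L hL0 _ _ F gg M (ENNReal.ofReal C1) (ENNReal.ofReal C2)
    (ENNReal.ofReal (C3 * (1 + Real.log L) ^ 2)) (ENNReal.ofReal C4)
    (ENNReal.ofReal Real.pi ^ 2) Y₀ hAm hGe hFm hggm hMm ENNReal.ofReal_ne_top
    ENNReal.ofReal_ne_top ENNReal.ofReal_ne_top (ENNReal.pow_ne_top ENNReal.ofReal_ne_top) hY₀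
    ?_ ?_ ?_ hGY hM2
  · refine key.trans (le_of_eq ?_)
    rw [← mul_assoc, ← ENNReal.ofReal_pow hC2.le, ← ENNReal.ofReal_pow hC4.le,
      ← ENNReal.ofReal_pow Real.pi_pos.le, ← ENNReal.ofReal_mul (by positivity),
      ← ENNReal.ofReal_mul (by positivity), ← ENNReal.ofReal_mul (by positivity),
      ← ENNReal.ofReal_mul (by positivity)]
    congr 2
    ring
  · intro ζ ζ'
    have h := h1 ζ ζ'
    simp only [hFsum] at h
    exact h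
  · intro a ζ
    by_cases ha : |(a : ℝ)| ≤ 9 / 10 * (L * r ζ)
    · refine ⟨fun z => ENNReal.ofReal (Bk L (sl (L * r ζ) a) z), (meas_Bk L _).ennreal_ofReal,
        (lint_Bk L _ hL0).le, ?_, ?_⟩
      · intro z
        have h := h2 a ζ ha z
        simp only [hF, hgg, if_pos ha]
        exact h
      · intro z'
        exact hM1 _ (sl_le (mul_pos hL0 (hrpos ζ)) ha) z'
    · refine ⟨fun _ => 0, measurable_const, by simp, ?_, ?_⟩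
      · intro z
        simp only [hF, if_neg ha]
        exact zero_le
      · intro z'
        simp
  · intro ζ z
    refine le_trans ?_ (h4 ζ z)
    refine Finset.sum_le_sum fun a _ => ?_
    simp only [hgg]
    split_ifs
    · exact le_rfl
    · exact zero_le

end Pool.Agent.TH278
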