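import Mathlib
import Pool.Agent.TH278.VVA2
import Pool.Agent.TH484.J612
import Pool.Agent.TH615.J613
import Pool.Agent.TH817.J614
import Pool.Agent.TH515.J631
import Pool.Agent.TH635.J636
import Pool.Agent.TH73.J637
import Pool.Agent.TH796.J638
import Pool.Agent.TH515.J713
set_option autoImplicit false

/-! # The vector valued Carleson-Sjolin theorem with variable radii -/

namespace Pool.Agent.TH278

open MeasureTheory Set Complex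
open scoped ENNReal RealInnerProductSpace
open Pool.Agent.H438R2.RZ (e Good ft Pl Bump mA mC Arc Win sl SL Bk gA TR)
open Pool.Agent.H789R2.FR (E)

theorem VVA_all (ψ α β : ℝ → ℝ) (hψ : Bump ψ) (hab : Arc α β) : ∃ C : ℝ, 0 < C ∧ VVA ψ α β C := by
  obtain ⟨N, hN⟩ := Pool.Agent.TH615.J613.overlap2
  exact VVA_of ψ α β hψ hab kakM
    (fun η hη hs => Pool.Agent.TH817.J614.orth2_of N hN ψ α β η hψ hab hη hs)
    (fun η θ hη hθ h1 h2 => cap_conv_r ψ α β η θ hψ hab hη hθ h1 h2)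

theorem VV_all (ψ : ℝ → ℝ) (hψ : Bump ψ) : ∃ C : ℝ, 0 < C ∧ VV ψ C :=
  Pool.Agent.TH796.J638.VV_of ψ hψ
    (Pool.Agent.TH635.J636.VVR_of (fun ψ α β h1 h2 => VVA_all ψ α β h1 h2) ψ hψ)
    (fun κ hκ => Pool.Agent.TH73.J637.VVS_all ψ hψ κ hκ)

theorem Estar (k : ℕ) (ψ : ℝ → ℝ) (hψ : Bump ψ) :
    ∃ C : ℝ, 0 < C ∧ ∀ L : ℝ, 20 ≤ L → ∀ f : E (k + 2) → ℂ, GoodN f →
    ∫⁻ z : ℝ × ℝ, (∫⁻ w : E k, ‖TR (k + 2) (ML ψ L) f (inp z w)‖ₑ ^ 2) ^ 2 ≤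
      ENNReal.ofReal (C * (1 + Real.log L) ^ 4) *
        ∫⁻ z : ℝ × ℝ, (∫⁻ w : E k, ‖f (inp z w)‖ₑ ^ 2) ^ 2 :=
  Estar_of k ψ hψ (VV_all ψ hψ)

end Pool.Agent.TH278
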