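import Mathlib
import Pool.Agent.TH278.Defs3
import Pool.Agent.TH278.VV
import Pool.Agent.TH508.J712
import Pool.Agent.TH761.J714
import Pool.Agent.TH558.J717
set_option autoImplicit false

/-! # Vertex bounds for every bump, pieces for measurable functions -/

namespace Pool.Agent.TH278

open MeasureTheory Set Complex Filter
open scoped ENNReal RealInnerProductSpace Topology
open Pool.Agent.H438R2.RZ (e Good ft Pl Bump TR)
open Pool.Agent.H789R2.FR (E)
open Pool.Agent.TH558.J717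

theorem VB_all (k : ℕ) (ψ : ℝ → ℝ) (hψ : Bump ψ) :
    ∃ C : ℝ, 0 < C ∧ ∀ L : ℝ, 20 ≤ L →
      VB k ψ L C (C * (1 + Real.log L)) (C * (1 + Real.log L)) :=
  VB_of k ψ hψ (Ei (k + 1) ψ hψ) (Ai (k + 1) ψ hψ) (Estar k ψ hψ)

/-- the constants of the interpolated bounds -/
theorem const_le (k : ℕ) (C L τ : ℝ) (hC : 0 < C) (hL : 20 ≤ L) (hτ0 : 0 ≤ τ) (hτ1 : τ ≤ 1) :
    C ^ (1 - τ) * (C * (1 + Real.log L)) ^ ((k : ℝ) * (τ / ((k : ℝ) + 2))) *
      (C * (1 + Real.log L)) ^ (2 * τ / ((k : ℝ) + 2)) ≤ C * (1 + Real.log L) ^ (1 : ℝ) := by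
  have hl : 1 ≤ 1 + Real.log L := by
    have := Real.log_nonneg (by linarith : (1 : ℝ) ≤ L)
    linarith
  have hl0 : 0 < 1 + Real.log L := by linarith
  have hx : 0 < C * (1 + Real.log L) := by positivity
  have hk : 0 < (k : ℝ) + 2 := by positivity
  rw [mul_assoc, ← Real.rpow_add hx]
  have h1 : (k : ℝ) * (τ / ((k : ℝ) + 2)) + 2 * τ / ((k : ℝ) + 2) = τ := by field_simp
  rw [h1, Real.mul_rpow hC.le hl0.le, ← mul_assoc, ← Real.rpow_add hC]
  have h2 : 1 - τ + τ = 1 := by ring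
  rw [h2, Real.rpow_one]
  exact mul_le_mul_of_nonneg_left (Real.rpow_le_rpow_of_exponent_le hl hτ1) hC.le

theorem const_pos (k : ℕ) (C L τ : ℝ) (hC : 0 < C) (hL : 20 ≤ L) :
    0 < C ^ (1 - τ) * (C * (1 + Real.log L)) ^ ((k : ℝ) * (τ / ((k : ℝ) + 2))) *
      (C * (1 + Real.log L)) ^ (2 * τ / ((k : ℝ) + 2)) := by
  have hl : 1 ≤ 1 + Real.log L := by
    have := Real.log_nonneg (by linarith : (1 : ℝ) ≤ L)
    linarith
  have hx : 0 < C * (1 + Real.log L) := by positivity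
  positivity

/-- `dom_piece` for measurable functions -/
theorem dom_piece_meas (k : ℕ) (ψ : ℝ → ℝ) (hψ : Bump ψ) (L p A : ℝ) (hp : 1 ≤ p)
    (hA : 0 < A) (hcore : DomCore k ψ L p A) (f : E (k + 2) → ℂ) (hf : Measurable f)
    (hfi : Integrable f) (g : ℝ × ℝ → ℝ) (φ : Fin k → ℝ → ℝ)
    (hg : Measurable g) (hφ : ∀ i, Measurable (φ i))
    (hdom : ∀ x, ‖f x‖ ≤ |g (x 0, x 1)| * ∏ i : Fin k, |φ i (x i.succ.succ)|) :
    eLpNorm (TR (k + 2) (ML ψ L) f) (ENNReal.ofReal p) volume ≤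
      ENNReal.ofReal A * (eLpNorm g (ENNReal.ofReal p) volume *
        ∏ i : Fin k, eLpNorm (φ i) (ENNReal.ofReal p) volume) := by
  have hp0 : 0 < p := by linarith
  have hP0 : ENNReal.ofReal p ≠ 0 := by simpa using hp0
  have hPt : (ENNReal.ofReal p).toReal = p := ENNReal.toReal_ofReal hp0.le
  -- degenerate case
  by_cases hz : eLpNorm g (ENNReal.ofReal p) volume = 0 ∨
      ∃ i, eLpNorm (φ i) (ENNReal.ofReal p) volume = 0
  · have hf0 : f =ᵐ[volume] 0 := by
      rcases hz with hz | ⟨i, hz⟩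
      · rw [eLpNorm_eq_zero_iff hg.aestronglyMeasurable hP0] at hz
        have h1 := ae_two (k := k) (P := fun z => g z = 0) hz
        filter_upwards [h1] with x hx
        have h2 := hdom x
        rw [hx, abs_zero, zero_mul] at h2
        simpa using h2
      · rw [eLpNorm_eq_zero_iff (hφ i).aestronglyMeasurable hP0] at hz
        have h1 := ae_one (m := k + 1) i.succ.succ (P := fun z => φ i z = 0) hz
        filter_upwards [h1] with x hx
        have h2 := hdom x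
        have h3 : ∏ i : Fin k, |φ i (x i.succ.succ)| = 0 :=
          Finset.prod_eq_zero (Finset.mem_univ i) (by rw [hx, abs_zero])
        rw [h3, mul_zero] at h2
        simpa using h2
    have h0 : TR (k + 2) (ML ψ L) f = 0 := funext fun x => TR_zero (ML ψ L) f hf0 x
    rw [h0, eLpNorm_zero]
    exact zero_le
  push Not at hz
  obtain ⟨hz0, hz1⟩ := hz
  by_cases ht : eLpNorm g (ENNReal.ofReal p) volume = ⊤ ∨
      ∃ i, eLpNorm (φ i) (ENNReal.ofReal p) volume = ⊤
  · have hA' : ENNReal.ofReal A ≠ 0 := by simpa using hA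
    have htop : eLpNorm g (ENNReal.ofReal p) volume *
        ∏ i : Fin k, eLpNorm (φ i) (ENNReal.ofReal p) volume = ⊤ := by
      rcases ht with ht | ⟨i, ht⟩
      · rw [ht, ENNReal.top_mul (Finset.prod_ne_zero_iff.mpr fun i _ => hz1 i)]
      · rw [← Finset.mul_prod_erase _ _ (Finset.mem_univ i), ht,
          ENNReal.top_mul (Finset.prod_ne_zero_iff.mpr fun i _ => hz1 i), ENNReal.mul_top hz0]
    rw [htop, ENNReal.mul_top hA']
    exact le_top
  push Not at ht
  obtain ⟨ht0, ht1⟩ := ht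
  -- main case
  set N₀ : ℝ := (eLpNorm g (ENNReal.ofReal p) volume).toReal with hN₀
  set N : Fin k → ℝ := fun i => (eLpNorm (φ i) (ENNReal.ofReal p) volume).toReal with hN
  have hN₀0 : 0 ≤ N₀ := ENNReal.toReal_nonneg
  have hN0 : ∀ i, 0 ≤ N i := fun i => ENNReal.toReal_nonneg
  have e₀ : eLpNorm g (ENNReal.ofReal p) volume = ENNReal.ofReal N₀ := (ENNReal.ofReal_toReal ht0).symm
  have e₁ : ∀ i, eLpNorm (φ i) (ENNReal.ofReal p) volume = ENNReal.ofReal (N i) :=
    fun i => (ENNReal.ofReal_toReal (ht1 i)).symm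
  have hR : ENNReal.ofReal A * (eLpNorm g (ENNReal.ofReal p) volume *
        ∏ i : Fin k, eLpNorm (φ i) (ENNReal.ofReal p) volume) =
      ENNReal.ofReal (A * (N₀ * ∏ i, N i)) := by
    rw [ENNReal.ofReal_mul hA.le, ENNReal.ofReal_mul hN₀0, e₀,
      ENNReal.ofReal_prod_of_nonneg fun i _ => hN0 i]
    congr 2
    exact Finset.prod_congr rfl fun i _ => e₁ i
  rw [hR, eLpNorm_eq_lintegral_rpow_enorm_toReal hP0 ENNReal.ofReal_ne_top, hPt]
  set S : ℕ → Set (E (k + 2)) := fun j =>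
    Cube (k + 2) (j : ℝ) ∩ {x | |g (x 0, x 1)| ≤ (j : ℝ) ∧ ∀ i : Fin k, |φ i (x i.succ.succ)| ≤ (j : ℝ)}
    with hS
  have hcoord : ∀ i : Fin (k + 2), Measurable (fun x : E (k + 2) => x i) := by
    intro i
    exact (by fun_prop : Continuous (fun x : E (k + 2) => x i)).measurable
  have hSm : ∀ j, MeasurableSet (S j) := by
    intro j
    refine (Cube_meas (j : ℝ)).inter ?_
    have h1 : {x : E (k + 2) | |g (x 0, x 1)| ≤ (j : ℝ) ∧ ∀ i : Fin k, |φ i (x i.succ.succ)| ≤ (j : ℝ)} =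
        {x : E (k + 2) | |g (x 0, x 1)| ≤ (j : ℝ)} ∩
          ⋂ i : Fin k, {x : E (k + 2) | |φ i (x i.succ.succ)| ≤ (j : ℝ)} := by
      ext x
      simp
    rw [h1]
    refine MeasurableSet.inter ?_ (MeasurableSet.iInter fun i => ?_)
    · exact measurableSet_le (hg.comp ((hcoord 0).prodMk (hcoord 1))).abs measurable_const
    · exact measurableSet_le ((hφ i).comp (hcoord _)).abs measurable_const
  have hSx : ∀ x, ∀ᶠ j in atTop, x ∈ S j := by
    intro x
    obtain ⟨K, hK⟩ := exists_nat_ge (|g (x 0, x 1)| + ∑ i : Fin k, |φ i (x i.succ.succ)|)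
    filter_upwards [Cube_eventually x, eventually_ge_atTop K] with j hj1 hj2
    have hj3 : (K : ℝ) ≤ j := by exact_mod_cast hj2
    have hs0 : 0 ≤ ∑ i : Fin k, |φ i (x i.succ.succ)| := Finset.sum_nonneg fun i _ => abs_nonneg _
    refine ⟨hj1, by linarith, fun i => ?_⟩
    have h1 : |φ i (x i.succ.succ)| ≤ ∑ i : Fin k, |φ i (x i.succ.succ)| :=
      Finset.single_le_sum (f := fun i : Fin k => |φ i (x i.succ.succ)|)
        (fun i _ => abs_nonneg _) (Finset.mem_univ i)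
    linarith [abs_nonneg (g (x 0, x 1))]
  refine fatou_step p hp _ (fun j => TR (k + 2) (ML ψ L) ((S j).indicator f))
    (fun j => TR_meas _ (ML_cont ψ hψ L) (hf.indicator (hSm j)))
    (fun x => TR_tendsto _ (ML_cont ψ hψ L) (ML_zero ψ hψ L) hf hfi S hSm hSx x)
    _ ?_
  intro j hj
  have hj0 : (0 : ℝ) < j := by exact_mod_cast hj
  have hlim : Tendsto (fun δ : ℝ => ENNReal.ofReal (A * ((N₀ + δ) * ∏ i, (N i + δ))))
      (𝓝[>] 0) (𝓝 (ENNReal.ofReal (A * (N₀ * ∏ i, N i)))) := by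
    have hc : Continuous (fun δ : ℝ => ENNReal.ofReal (A * ((N₀ + δ) * ∏ i, (N i + δ)))) :=
      ENNReal.continuous_ofReal.comp (by fun_prop)
    have := hc.tendsto 0
    simp only [add_zero] at this
    exact this.mono_left nhdsWithin_le_nhds
  refine ge_of_tendsto hlim ?_
  filter_upwards [self_mem_nhdsWithin] with δ hδ
  exact trunc_est k ψ L p A hp hcore f hf g φ hg hφ hdom N₀ hN₀0 N hN0 e₀.le
    (fun i => (e₁ i).le) j hj0 δ hδ

end Pool.Agent.TH278
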