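import Mathlib
import Pool.Agent.TH278.Main1
import Pool.Agent.TH500.J718
import Pool.Agent.TH822.J719
set_option autoImplicit false

/-! # The Bochner-Riesz conjecture for product functions: summation -/

namespace Pool.Agent.TH278

open MeasureTheory Set Complex Filter
open scoped ENNReal RealInnerProductSpace Topology
open Pool.Agent.H438R2.RZ (e Good ft Pl Bump TR)
open Pool.Agent.H789R2.FR (E)

/-- statement of `dom_core` -/
def DomHyp (k : ℕ) : Prop := ∀ (ψ : ℝ → ℝ) (_ : Bump ψ) (L A₀ A₁ A₂ : ℝ) (_ : 20 ≤ L)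
    (_ : VB k ψ L A₀ A₁ A₂) (τ p : ℝ) (_ : 0 ≤ τ) (_ : τ ≤ 1) (_ : 0 < p)
    (_ : 1 / p = 1 / 2 + τ / (2 * ((k : ℝ) + 2))),
    DomCore k ψ L p (A₀ ^ (1 - τ) * A₁ ^ ((k : ℝ) * (τ / ((k : ℝ) + 2))) *
      A₂ ^ (2 * τ / ((k : ℝ) + 2)))

/-- statement of `prod_core` -/
def ProdHyp (k : ℕ) : Prop := ∀ (ψ : ℝ → ℝ) (_ : Bump ψ) (L A₀ A₁ A₂ : ℝ) (_ : 20 ≤ L)
    (_ : VB k ψ L A₀ A₁ A₂) (τ p : ℝ) (_ : 0 ≤ τ) (_ : τ ≤ 1) (_ : 0 < p)
    (_ : 1 / p = 1 / 2 - τ / (2 * ((k : ℝ) + 2))),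
    ProdCore k ψ L p (A₀ ^ (1 - τ) * A₁ ^ ((k : ℝ) * (τ / ((k : ℝ) + 2))) *
      A₂ ^ (2 * τ / ((k : ℝ) + 2)))

/-- product data are dominated data -/
theorem prod_of_dom (k : ℕ) (ψ : ℝ → ℝ) (L p A : ℝ) (h : DomCore k ψ L p A) :
    ProdCore k ψ L p A := by
  intro B hB g φ hg hφ m M hm hgm hφm hgi hφi u₀ u hu₀ hu hu₀1 hu1 hu₀B huB
  refine h B hB g φ hg hφ m M hm hgm hφm hgi hφi
    (fun x => u₀ (x 0, x 1) * ∏ i : Fin k, u i (x i.succ.succ)) ?_ ?_ ?_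
  · have hcoord : ∀ i : Fin (k + 2), Measurable (fun x : E (k + 2) => x i) := by
      intro i
      exact (by fun_prop : Continuous (fun x : E (k + 2) => x i)).measurable
    exact (hu₀.comp ((hcoord 0).prodMk (hcoord 1))).mul
      (Finset.measurable_prod _ fun i _ => (hu i).comp (hcoord _))
  · intro x
    rw [norm_mul, norm_prod]
    have h1 : ∏ i : Fin k, ‖u i (x i.succ.succ)‖ ≤ 1 :=
      Finset.prod_le_one (fun i _ => norm_nonneg _) (fun i _ => hu1 i _)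
    have h2 := hu₀1 (x 0, x 1)
    calc _ ≤ (1 : ℝ) * 1 := mul_le_mul h2 h1 (Finset.prod_nonneg fun i _ => norm_nonneg _) zero_le_one
      _ = 1 := one_mul 1
  · intro x hx
    have h0 : u₀ (x 0, x 1) ≠ 0 := left_ne_zero_of_mul hx
    have h1 : ∀ i : Fin k, u i (x i.succ.succ) ≠ 0 := fun i =>
      Finset.prod_ne_zero_iff.1 (right_ne_zero_of_mul hx) i (Finset.mem_univ i)
    have h2 := hu₀B _ h0
    intro i
    refine Fin.cases h2.1 (fun j => ?_) i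
    refine Fin.cases h2.2 (fun l => ?_) j
    exact huB l _ (h1 l)

/-- choice of the interpolation parameter, `p ≤ 2` -/
theorem tau_low (k : ℕ) (p : ℝ) (hp1 : 2 * ((k : ℝ) + 2) / ((k : ℝ) + 3) ≤ p) (hp2 : p ≤ 2) :
    1 ≤ p ∧ ∃ τ : ℝ, 0 ≤ τ ∧ τ ≤ 1 ∧ 1 / p = 1 / 2 + τ / (2 * ((k : ℝ) + 2)) := by
  have hk : (0 : ℝ) ≤ k := Nat.cast_nonneg k
  have h1 : 1 ≤ p := by
    refine le_trans ?_ hp1
    rw [le_div_iff₀ (by positivity)]
    linarith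
  have hp0 : 0 < p := by linarith
  refine ⟨h1, 2 * ((k : ℝ) + 2) * (1 / p - 1 / 2), ?_, ?_, ?_⟩
  · have : 1 / 2 ≤ 1 / p := one_div_le_one_div_of_le hp0 hp2
    have : 0 ≤ 1 / p - 1 / 2 := by linarith
    positivity
  · have h2 : 2 * ((k : ℝ) + 2) ≤ p * ((k : ℝ) + 3) := by
      rwa [div_le_iff₀ (by positivity)] at hp1
    have h3 : 1 / p ≤ ((k : ℝ) + 3) / (2 * ((k : ℝ) + 2)) := by
      rw [div_le_div_iff₀ hp0 (by positivity)]
      linarith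
    have h4 : 1 / p - 1 / 2 ≤ 1 / (2 * ((k : ℝ) + 2)) := by
      have : ((k : ℝ) + 3) / (2 * ((k : ℝ) + 2)) = 1 / (2 * ((k : ℝ) + 2)) + 1 / 2 := by
        field_simp; ring
      linarith
    have := mul_le_mul_of_nonneg_left h4 (by positivity : (0 : ℝ) ≤ 2 * ((k : ℝ) + 2))
    rwa [mul_one_div_cancel (by positivity)] at this
  · field_simp
    ring

/-- choice of the interpolation parameter, `p ≥ 2` -/
theorem tau_high (k : ℕ) (p : ℝ) (hp1 : 2 ≤ p) (hp2 : p ≤ 2 * ((k : ℝ) + 2) / ((k : ℝ) + 1)) :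
    ∃ τ : ℝ, 0 ≤ τ ∧ τ ≤ 1 ∧ 1 / p = 1 / 2 - τ / (2 * ((k : ℝ) + 2)) := by
  have hk : (0 : ℝ) ≤ k := Nat.cast_nonneg k
  have hp0 : 0 < p := by linarith
  refine ⟨2 * ((k : ℝ) + 2) * (1 / 2 - 1 / p), ?_, ?_, ?_⟩
  · have : 1 / p ≤ 1 / 2 := one_div_le_one_div_of_le (by norm_num) hp1
    have : 0 ≤ 1 / 2 - 1 / p := by linarith
    positivity
  · have h2 : p * ((k : ℝ) + 1) ≤ 2 * ((k : ℝ) + 2) := by
      rwa [le_div_iff₀ (by positivity)] at hp2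
    have h3 : ((k : ℝ) + 1) / (2 * ((k : ℝ) + 2)) ≤ 1 / p := by
      rw [div_le_div_iff₀ (by positivity) hp0]
      linarith
    have h4 : 1 / 2 - 1 / p ≤ 1 / (2 * ((k : ℝ) + 2)) := by
      have : ((k : ℝ) + 1) / (2 * ((k : ℝ) + 2)) = 1 / 2 - 1 / (2 * ((k : ℝ) + 2)) := by
        field_simp; ring
      linarith
    have := mul_le_mul_of_nonneg_left h4 (by positivity : (0 : ℝ) ≤ 2 * ((k : ℝ) + 2))
    rwa [mul_one_div_cancel (by positivity)] at this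
  · field_simp
    ring

/-- pieces, `p ≤ 2`: core bound with logarithmic growth -/
theorem dom_core_log (k : ℕ) (hD : DomHyp k) (p : ℝ)
    (hp1 : 2 * ((k : ℝ) + 2) / ((k : ℝ) + 3) ≤ p) (hp2 : p ≤ 2) (ψ : ℝ → ℝ) (hψ : Bump ψ) :
    ∃ C : ℝ, 0 < C ∧ ∀ L : ℝ, 20 ≤ L → ∃ A : ℝ, 0 < A ∧ A ≤ C * (1 + Real.log L) ^ (1 : ℝ) ∧
      DomCore k ψ L p A := by
  obtain ⟨C, hC, hVB⟩ := VB_all k ψ hψ
  obtain ⟨h1, τ, hτ0, hτ1, hτ⟩ := tau_low k p hp1 hp2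
  exact ⟨C, hC, fun L hL => ⟨_, const_pos k C L τ hC hL, const_le k C L τ hC hL hτ0 hτ1,
    hD ψ hψ L _ _ _ hL (hVB L hL) τ p hτ0 hτ1 (by linarith) hτ⟩⟩

theorem prod_core_log (k : ℕ) (hD : DomHyp k) (hP : ProdHyp k) (p : ℝ)
    (hp1 : 2 * ((k : ℝ) + 2) / ((k : ℝ) + 3) ≤ p) (hp2 : p ≤ 2 * ((k : ℝ) + 2) / ((k : ℝ) + 1))
    (ψ : ℝ → ℝ) (hψ : Bump ψ) :
    ∃ C : ℝ, 0 < C ∧ ∀ L : ℝ, 20 ≤ L → ∃ A : ℝ, 0 < A ∧ A ≤ C * (1 + Real.log L) ^ (1 : ℝ) ∧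
      ProdCore k ψ L p A := by
  rcases le_total p 2 with h | h
  · obtain ⟨C, hC, h2⟩ := dom_core_log k hD p hp1 h ψ hψ
    refine ⟨C, hC, fun L hL => ?_⟩
    obtain ⟨A, h3, h4, h5⟩ := h2 L hL
    exact ⟨A, h3, h4, prod_of_dom k ψ L p A h5⟩
  · obtain ⟨C, hC, hVB⟩ := VB_all k ψ hψ
    obtain ⟨τ, hτ0, hτ1, hτ⟩ := tau_high k p h hp2
    exact ⟨C, hC, fun L hL => ⟨_, const_pos k C L τ hC hL, const_le k C L τ hC hL hτ0 hτ1,
      hP ψ hψ L _ _ _ hL (hVB L hL) τ p hτ0 hτ1 (by linarith) hτ⟩⟩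

/-- product functions -/
def IsProd {k : ℕ} (f : E (k + 2) → ℂ) : Prop :=
  ∃ (g : ℝ × ℝ → ℂ) (φ : Fin k → ℝ → ℂ), ∀ x, f x = g (x 0, x 1) * ∏ i : Fin k, φ i (x i.succ.succ)

open Classical in
/-- the Bochner-Riesz conjecture for product functions (operator `BR`) -/
theorem BR_prod (k : ℕ) (hD : DomHyp k) (hP : ProdHyp k) (p δ : ℝ) (hδ : 0 < δ)
    (hp1 : 2 * ((k : ℝ) + 2) / ((k : ℝ) + 3) ≤ p) (hp2 : p ≤ 2 * ((k : ℝ) + 2) / ((k : ℝ) + 1)) :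
    ∃ C : ℝ, ∀ f : SchwartzMap (E (k + 2)) ℂ, IsProd (fun x => f x) →
      eLpNorm (BR δ (fun x => f x)) (ENNReal.ofReal p) volume ≤
        ENNReal.ofReal C * eLpNorm (fun x => f x) (ENNReal.ofReal p) volume := by
  have hk : (0 : ℝ) ≤ k := Nat.cast_nonneg k
  have h1 : 1 ≤ p := by
    refine le_trans ?_ hp1
    rw [le_div_iff₀ (by positivity)]
    linarith
  obtain ⟨C, hC⟩ := Pool.Agent.TH822.J719.sum_pieces (k + 2) (by omega) p δ h1 hδ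
    (fun f => if IsProd (fun x => f x) then eLpNorm (fun x => f x) (ENNReal.ofReal p) volume else ⊤)
    (by
      intro ψ hψ
      obtain ⟨C, hC, h2⟩ := prod_core_log k hD hP p hp1 hp2 ψ hψ
      refine ⟨C, 1, hC, one_pos, fun L hL f => ?_⟩
      obtain ⟨A, hA, hAC, hcore⟩ := h2 L hL
      by_cases hf : IsProd (fun x => f x)
      · simp only [if_pos hf]
        obtain ⟨g, φ, hprod⟩ := hf
        have hb : ∃ M : ℝ, ∀ x, ‖f x‖ ≤ M := by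
          obtain ⟨M, hM⟩ := f.decay 0 0
          exact ⟨M, fun x => by simpa using hM.2 x⟩
        refine (Pool.Agent.TH500.J718.prod_piece k ψ hψ L p A hL h1 hA hcore (fun x => f x)
          f.continuous f.integrable hb g φ hprod).trans ?_
        gcongr
      · simp only [if_neg hf]
        have hpos : 0 < C * (1 + Real.log L) ^ (1 : ℝ) := lt_of_lt_of_le hA hAC
        rw [ENNReal.mul_top (by simpa using hpos)]
        exact le_top)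
    (by
      intro f
      by_cases hf : IsProd (fun x => f x)
      · simp only [if_pos hf]; exact le_rfl
      · simp only [if_neg hf]; exact le_top)
  refine ⟨C, fun f hf => ?_⟩
  have := hC f
  simpa only [if_pos hf] using this

end Pool.Agent.TH278
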