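import Mathlib
import Pool.Agent.TH278.Main2
set_option autoImplicit false

/-! # The Bochner-Riesz conjecture for product functions: rotations and permutations -/

namespace Pool.Agent.TH278

open MeasureTheory Set Complex Filter
open scoped ENNReal RealInnerProductSpace Topology
open Pool.Agent.H438R2.RZ (e Good ft Pl Bump TR)
open Pool.Agent.H789R2.FR (E)

/-- composition of a Schwartz function with a linear isometry -/
noncomputable def rot {n : ℕ} (U : E n ≃ₗᵢ[ℝ] E n) (f : SchwartzMap (E n) ℂ) : SchwartzMap (E n) ℂ :=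
  SchwartzMap.compCLMOfContinuousLinearEquiv ℝ U.toContinuousLinearEquiv f

theorem rot_apply {n : ℕ} (U : E n ≃ₗᵢ[ℝ] E n) (f : SchwartzMap (E n) ℂ) (x : E n) :
    rot U f x = f (U x) := rfl

/-- the Bochner-Riesz operator commutes with linear isometries -/
theorem BR_rot {n : ℕ} (δ : ℝ) (U : E n ≃ₗᵢ[ℝ] E n) (f : E n → ℂ) (x : E n) :
    BR δ (fun y => f (U y)) x = BR δ f (U x) := by
  unfold BR
  have hU := U.measurePreserving
  have he : MeasurableEmbedding (U : E n → E n) := U.toHomeomorph.measurableEmbedding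
  have h2 := hU.integral_comp he (fun ξ : E n => (((max (1 - ‖ξ‖ ^ 2) (0 : ℝ)) ^ δ : ℝ) : ℂ) *
    (∫ y : E n, e (-(⟪y, ξ⟫ : ℝ)) * f y) * e (⟪U x, ξ⟫ : ℝ))
  rw [← h2]
  congr 1
  funext ξ
  have h1 : (∫ y : E n, e (-(⟪y, ξ⟫ : ℝ)) * f (U y)) = ∫ y : E n, e (-(⟪y, U ξ⟫ : ℝ)) * f y := by
    have h3 := hU.integral_comp he (fun y : E n => e (-(⟪y, U ξ⟫ : ℝ)) * f y)
    rw [← h3]
    congr 1
    funext y
    rw [U.inner_map_map]
  simp only [h1, U.norm_map, U.inner_map_map]

theorem eLpNorm_rot {n : ℕ} {F : Type*} [NormedAddCommGroup F] (U : E n ≃ₗᵢ[ℝ] E n) (f : E n → F)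
    (p : ℝ≥0∞) : eLpNorm (fun x => f (U x)) p volume = eLpNorm f p volume := by
  have hU := U.measurePreserving
  have he : MeasurableEmbedding (U : E n → E n) := U.toHomeomorph.measurableEmbedding
  have h := he.eLpNorm_map_measure (μ := volume) (g := f) (p := p)
  rw [hU.map_eq] at h
  exact h.symm

/-- permutation of the coordinates -/
noncomputable def perm {n : ℕ} (σ : Equiv.Perm (Fin n)) : E n ≃ₗᵢ[ℝ] E n :=
  LinearIsometryEquiv.piLpCongrLeft 2 ℝ ℝ σ

theorem perm_apply {n : ℕ} (σ : Equiv.Perm (Fin n)) (x : E n) (i : Fin n) :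
    perm σ x i = x (σ.symm i) := rfl

/-- two distinct indices can be moved to `0, 1` -/
theorem exists_perm (k : ℕ) (i₀ i₁ : Fin (k + 2)) (h : i₀ ≠ i₁) :
    ∃ σ : Equiv.Perm (Fin (k + 2)), σ 0 = i₀ ∧ σ 1 = i₁ := by
  set s := Equiv.swap 0 i₀ with hs
  have h0 : s 0 = i₀ := Equiv.swap_apply_left _ _
  set j := s.symm i₁ with hj
  have hj0 : j ≠ 0 := by
    intro h1
    apply h
    rw [← h0, ← h1, hj, Equiv.apply_symm_apply]
  refine ⟨(Equiv.swap 1 j).trans s, ?_, ?_⟩
  · rw [Equiv.trans_apply, Equiv.swap_apply_of_ne_of_ne (by simp) (Ne.symm hj0), h0]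
  · rw [Equiv.trans_apply, Equiv.swap_apply_left, hj, Equiv.apply_symm_apply]

theorem prod_perm {M : Type*} [CommMonoid M] (k : ℕ) (i₀ i₁ : Fin (k + 2))
    (σ : Equiv.Perm (Fin (k + 2))) (h0 : σ 0 = i₀) (h1 : σ 1 = i₁) (F : Fin (k + 2) → M) :
    ∏ i ∈ Finset.univ \ {i₀, i₁}, F i = ∏ i : Fin k, F (σ i.succ.succ) := by
  have himg : (Finset.univ : Finset (Fin (k + 2))) \ {i₀, i₁} =
      (Finset.univ : Finset (Fin k)).image (fun i => σ i.succ.succ) := by
    ext j
    simp only [Finset.mem_sdiff, Finset.mem_univ, true_and, Finset.mem_insert,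
      Finset.mem_singleton, not_or, Finset.mem_image]
    constructor
    · rintro ⟨hj0, hj1⟩
      have e0 : σ.symm j ≠ 0 := by
        intro h; apply hj0; rw [← h0, ← h, Equiv.apply_symm_apply]
      obtain ⟨a, ha⟩ := Fin.exists_succ_eq.mpr e0
      have e1 : a ≠ 0 := by
        intro h
        apply hj1
        rw [← h1, ← Equiv.apply_symm_apply σ j, ← ha, h]
        rfl
      obtain ⟨b, hb⟩ := Fin.exists_succ_eq.mpr e1
      exact ⟨b, by rw [hb, ha, Equiv.apply_symm_apply]⟩
    · rintro ⟨a, rfl⟩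
      refine ⟨?_, ?_⟩
      · rw [← h0]
        intro h
        exact absurd (σ.injective h) (Fin.succ_ne_zero _)
      · rw [← h1]
        intro h
        have h2 := σ.injective h
        have h3 : (1 : Fin (k + 2)) = Fin.succ 0 := rfl
        rw [h3] at h2
        exact absurd (Fin.succ_injective _ h2) (Fin.succ_ne_zero _)
  rw [himg, Finset.prod_image]
  intro a _ b _ hab
  exact Fin.succ_injective _ (Fin.succ_injective _ (σ.injective hab))

end Pool.Agent.TH278
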