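import Mathlib
import Pool.Agent.TH278.Main3
import Pool.Agent.TH225.J715
import Pool.Agent.TH671.J716
set_option autoImplicit false

/-! # The Bochner-Riesz conjecture for product functions -/

namespace Pool.Agent.TH278

open MeasureTheory Set Complex Filter
open scoped ENNReal RealInnerProductSpace Topology
open Pool.Agent.H438R2.RZ (e Good ft Pl Bump TR)
open Pool.Agent.H789R2.FR (E)

theorem domHyp (k : ℕ) : DomHyp k := fun ψ hψ L A₀ A₁ A₂ hL hVB τ p h0 h1 hp hpτ =>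
  dom_core k ψ hψ L A₀ A₁ A₂ hL hVB τ p h0 h1 hp hpτ

theorem prodHyp (k : ℕ) (hk : 1 ≤ k) : ProdHyp k := fun ψ hψ L A₀ A₁ A₂ hL hVB τ p h0 h1 hp hpτ =>
  prod_core k hk ψ hψ L A₀ A₁ A₂ hL hVB τ p h0 h1 hp hpτ

theorem range_low (k : ℕ) (p : ℝ)
    (hp1 : 2 * ((k + 2 : ℕ) : ℝ) / (((k + 2 : ℕ) : ℝ) + 1) ≤ p) :
    2 * ((k : ℝ) + 2) / ((k : ℝ) + 3) ≤ p := by
  have h : 2 * ((k + 2 : ℕ) : ℝ) / (((k + 2 : ℕ) : ℝ) + 1) = 2 * ((k : ℝ) + 2) / ((k : ℝ) + 3) := by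
    push_cast
    congr 1
    ring
  rwa [h] at hp1

theorem range_high (k : ℕ) (p : ℝ)
    (hp2 : p ≤ 2 * ((k + 2 : ℕ) : ℝ) / (((k + 2 : ℕ) : ℝ) - 1)) :
    p ≤ 2 * ((k : ℝ) + 2) / ((k : ℝ) + 1) := by
  have h : 2 * ((k + 2 : ℕ) : ℝ) / (((k + 2 : ℕ) : ℝ) - 1) = 2 * ((k : ℝ) + 2) / ((k : ℝ) + 1) := by
    push_cast
    congr 1
    ring
  rwa [h] at hp2

/-- The Bochner-Riesz conjecture for product functions, in any orthonormal coordinates. -/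
theorem BR_prod_all (n : ℕ) (hn : 3 ≤ n) (δ : ℝ) (hδ : 0 < δ) (p : ℝ)
    (hp1 : 2 * (n : ℝ) / ((n : ℝ) + 1) ≤ p) (hp2 : p ≤ 2 * (n : ℝ) / ((n : ℝ) - 1)) :
    ∃ C : ℝ, ∀ f : SchwartzMap (E n) ℂ, ∀ U : E n ≃ₗᵢ[ℝ] E n, ∀ i₀ i₁ : Fin n, i₀ ≠ i₁ →
      ∀ (g : ℝ × ℝ → ℂ) (φ : Fin n → ℝ → ℂ),
      (∀ x, f (U x) = g (x i₀, x i₁) * ∏ i ∈ Finset.univ \ {i₀, i₁}, φ i (x i)) →
      eLpNorm (BR δ (fun x => f x)) (ENNReal.ofReal p) volume ≤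
        ENNReal.ofReal C * eLpNorm (fun x => f x) (ENNReal.ofReal p) volume := by
  obtain ⟨k, rfl⟩ : ∃ k, n = k + 2 := ⟨n - 2, by omega⟩
  have hk : 1 ≤ k := by omega
  obtain ⟨C, hC⟩ := BR_prod k (domHyp k) (prodHyp k hk) p δ hδ (range_low k p hp1)
    (range_high k p hp2)
  refine ⟨C, fun f U i₀ i₁ hi g φ hf => ?_⟩
  obtain ⟨σ, h0, h1⟩ := exists_perm k i₀ i₁ hi
  have h0' : σ.symm i₀ = 0 := by rw [← h0, Equiv.symm_apply_apply]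
  have h1' : σ.symm i₁ = 1 := by rw [← h1, Equiv.symm_apply_apply]
  set W : E (k + 2) ≃ₗᵢ[ℝ] E (k + 2) := (perm σ).trans U with hW
  have hWx : ∀ x, W x = U (perm σ x) := fun x => rfl
  have hprod : IsProd (fun x => rot W f x) := by
    refine ⟨g, fun i => φ (σ i.succ.succ), fun x => ?_⟩
    change f (W x) = _
    rw [hWx, hf, prod_perm k i₀ i₁ σ h0 h1]
    simp only [perm_apply, h0', h1', Equiv.symm_apply_apply]
  have h := hC (rot W f) hprod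
  have e1 : (fun x => rot W f x) = fun x => f (W x) := rfl
  rw [e1] at h
  have e2 : BR δ (fun x => f (W x)) = fun x => BR δ (fun y => f y) (W x) :=
    funext fun x => BR_rot δ W (fun y => f y) x
  rw [e2, eLpNorm_rot W (BR δ (fun y => f y)), eLpNorm_rot W (fun x => f x)] at h
  exact h

end Pool.Agent.TH278
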