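import Mathlib
import Pool.Agent.TH278.Main4
set_option autoImplicit false

/-! # The dual bound for all functions: one annulus piece -/

namespace Pool.Agent.TH278

open MeasureTheory Set Complex Filter
open scoped ENNReal RealInnerProductSpace Topology
open Pool.Agent.H438R2.RZ (e Good ft Pl Bump TR)
open Pool.Agent.H789R2.FR (E)
open Pool.Agent.TH822.J719 (fh fh_int fh_bdd fh_cont M_int TR_int TR_cont norm_e e_cont)

/-- pieces, `p ≤ 2`: bound for dominated functions, logarithmic growth -/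
theorem dom_L (k : ℕ) (p : ℝ)
    (hp1 : 2 * ((k : ℝ) + 2) / ((k : ℝ) + 3) ≤ p) (hp2 : p ≤ 2) (ψ : ℝ → ℝ) (hψ : Bump ψ) :
    ∃ C : ℝ, 0 < C ∧ ∀ L : ℝ, 20 ≤ L → ∀ f : E (k + 2) → ℂ, Measurable f → Integrable f →
      ∀ (g : ℝ × ℝ → ℝ) (φ : Fin k → ℝ → ℝ), Measurable g → (∀ i, Measurable (φ i)) →
      (∀ x, ‖f x‖ ≤ |g (x 0, x 1)| * ∏ i : Fin k, |φ i (x i.succ.succ)|) →
      eLpNorm (TR (k + 2) (ML ψ L) f) (ENNReal.ofReal p) volume ≤
        ENNReal.ofReal (C * (1 + Real.log L) ^ (1 : ℝ)) * (eLpNorm g (ENNReal.ofReal p) volume *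
          ∏ i : Fin k, eLpNorm (φ i) (ENNReal.ofReal p) volume) := by
  obtain ⟨C, hC, h⟩ := dom_core_log k (domHyp k) p hp1 hp2 ψ hψ
  have h1 := (tau_low k p hp1 hp2).1
  refine ⟨C, hC, fun L hL f hf hfi g φ hg hφ hdom => ?_⟩
  obtain ⟨A, hA, hAC, hcore⟩ := h L hL
  refine (dom_piece_meas k ψ hψ L p A h1 hA hcore f hf hfi g φ hg hφ hdom).trans ?_
  gcongr

/-- the bilinear form in terms of Fourier transforms, integrable functions -/
theorem TR_form {n : ℕ} (M : ℝ → ℝ) (hM : Continuous M) (hM2 : ∀ u, 2 < u → M u = 0)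
    (f h : E n → ℂ) (hf : Integrable f) (hh : Integrable h) :
    ∫ x, TR n M f x * h x = ∫ ξ : E n, ((M (‖ξ‖ ^ 2) : ℝ) : ℂ) * fh f ξ * fh h (-ξ) := by
  have hUi : Integrable (fun ξ : E n => ((M (‖ξ‖ ^ 2) : ℝ) : ℂ) * fh f ξ) :=
    (M_int (n := n) M hM hM2).mul_bdd (c := ∫ y, ‖f y‖) (fh_cont f hf).aestronglyMeasurable
      (Filter.Eventually.of_forall fun ξ => fh_bdd f ξ)
  have hprod : Integrable (fun p : E n × E n =>
      (h p.1 * (((M (‖p.2‖ ^ 2) : ℝ) : ℂ) * fh f p.2)) * e (⟪p.1, p.2⟫ : ℝ))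
      ((volume : Measure (E n)).prod volume) := by
    refine (hh.mul_prod hUi).mul_bdd (c := 1) ?_ ?_
    · exact (e_cont.comp (by fun_prop)).aestronglyMeasurable
    · exact ae_of_all _ fun p => (norm_e _).le
  have hsw := integral_integral_swap (μ := (volume : Measure (E n)))
    (ν := (volume : Measure (E n)))
    (f := fun x ξ => (h x * (((M (‖ξ‖ ^ 2) : ℝ) : ℂ) * fh f ξ)) * e (⟪x, ξ⟫ : ℝ)) hprod
  calc ∫ x : E n, TR n M f x * h x =
      ∫ x : E n, ∫ ξ : E n, (h x * (((M (‖ξ‖ ^ 2) : ℝ) : ℂ) * fh f ξ)) * e (⟪x, ξ⟫ : ℝ) := by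
        refine integral_congr_ae (ae_of_all _ fun x => ?_)
        simp only
        unfold TR
        rw [← integral_mul_const]
        refine integral_congr_ae (ae_of_all _ fun ξ => ?_)
        simp only
        unfold fh
        ring
    _ = ∫ ξ : E n, ∫ x : E n, (h x * (((M (‖ξ‖ ^ 2) : ℝ) : ℂ) * fh f ξ)) * e (⟪x, ξ⟫ : ℝ) := hsw
    _ = _ := by
        refine integral_congr_ae (ae_of_all _ fun ξ => ?_)
        simp only
        have h2 : fh h (-ξ) = ∫ x : E n, e (⟪x, ξ⟫ : ℝ) * h x := by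
          unfold fh
          simp only [inner_neg_right, neg_neg]
        rw [h2, ← integral_const_mul]
        refine integral_congr_ae (ae_of_all _ fun x => ?_)
        simp only
        ring

theorem TR_symm {n : ℕ} (M : ℝ → ℝ) (hM : Continuous M) (hM2 : ∀ u, 2 < u → M u = 0)
    (f h : E n → ℂ) (hf : Integrable f) (hh : Integrable h) :
    ∫ x, TR n M f x * h x = ∫ x, f x * TR n M h x := by
  rw [TR_form M hM hM2 f h hf hh]
  have h1 : ∫ x, f x * TR n M h x = ∫ x, TR n M h x * f x := by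
    congr 1; funext x; ring
  rw [h1, TR_form M hM hM2 h f hh hf, ← integral_neg_eq_self]
  refine integral_congr_ae (ae_of_all _ fun ξ => ?_)
  simp only [norm_neg, neg_neg]
  ring

/-- conjugate phase -/
noncomputable def cph (z : ℂ) : ℂ := (starRingEnd ℂ) z / (‖z‖ : ℂ)

theorem cph_norm (z : ℂ) : ‖cph z‖ ≤ 1 := by
  unfold cph
  rw [norm_div, Complex.norm_real, norm_norm, RCLike.norm_conj]
  exact div_self_le_one _

theorem mul_cph (z : ℂ) : z * cph z = (‖z‖ : ℂ) := by
  unfold cph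
  rcases eq_or_ne z 0 with h | h
  · simp [h]
  · have h1 : (‖z‖ : ℂ) ≠ 0 := by simpa using h
    rw [mul_div_assoc', Complex.mul_conj, Complex.normSq_eq_norm_sq, div_eq_iff h1]
    push_cast
    ring

theorem cph_meas : Measurable cph := by
  unfold cph
  exact (Complex.continuous_conj.measurable).div
    (Complex.continuous_ofReal.measurable.comp measurable_norm)

theorem coord_meas {n : ℕ} (i : Fin n) : Measurable (fun x : E n => x i) :=
  (by fun_prop : Continuous (fun x : E n => x i)).measurable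

/-- the dual bound for one annulus piece -/
theorem dual_piece (k : ℕ) (p q : ℝ) (hpq : p.HolderConjugate q) (A : ℝ)
    (M : ℝ → ℝ) (hM : Continuous M) (hM2 : ∀ u, 2 < u → M u = 0)
    (f : E (k + 2) → ℂ) (hf : Continuous f) (hfi : Integrable f)
    (g : ℝ × ℝ → ℝ) (φ : Fin k → ℝ → ℝ) (hg : Measurable g) (hφ : ∀ i, Measurable (φ i))
    (hA : ∀ h : E (k + 2) → ℂ, Measurable h → Integrable h →
      (∀ x, ‖h x‖ ≤ |g (x 0, x 1)| * ∏ i : Fin k, |φ i (x i.succ.succ)|) →
      eLpNorm (TR (k + 2) M h) (ENNReal.ofReal q) volume ≤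
        ENNReal.ofReal A * (eLpNorm g (ENNReal.ofReal q) volume *
          ∏ i : Fin k, eLpNorm (φ i) (ENNReal.ofReal q) volume)) :
    ∫⁻ x, ‖TR (k + 2) M f x‖ₑ * (‖g (x 0, x 1)‖ₑ * ∏ i : Fin k, ‖φ i (x i.succ.succ)‖ₑ) ≤
      ENNReal.ofReal A * eLpNorm f (ENNReal.ofReal p) volume *
        (eLpNorm g (ENNReal.ofReal q) volume *
          ∏ i : Fin k, eLpNorm (φ i) (ENNReal.ofReal q) volume) := by
  set T := TR (k + 2) M f with hT
  have hTc : Continuous T := TR_cont M hM hM2 f hfi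
  set w : E (k + 2) → ℝ := fun x => |g (x 0, x 1)| * ∏ i : Fin k, |φ i (x i.succ.succ)| with hw
  have hw0 : ∀ x, 0 ≤ w x := fun x => by positivity
  have hwm : Measurable w :=
    (hg.comp ((coord_meas 0).prodMk (coord_meas 1))).abs.mul
      (Finset.measurable_prod _ fun i _ => ((hφ i).comp (coord_meas _)).abs)
  have hwe : ∀ x, ‖g (x 0, x 1)‖ₑ * ∏ i : Fin k, ‖φ i (x i.succ.succ)‖ₑ = ENNReal.ofReal (w x) := by
    intro x
    rw [hw, ENNReal.ofReal_mul (abs_nonneg _), ENNReal.ofReal_prod_of_nonneg fun i _ => abs_nonneg _]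
    simp only [← Real.enorm_eq_ofReal_abs]
  simp_rw [hwe]
  set S : ℕ → Set (E (k + 2)) := fun j => Cube (k + 2) (j : ℝ) ∩ {x | w x ≤ (j : ℝ)} with hS
  have hSm : ∀ j, MeasurableSet (S j) := fun j =>
    (Pool.Agent.TH558.J717.Cube_meas (j : ℝ)).inter (measurableSet_le hwm measurable_const)
  have hSx : ∀ x, ∀ᶠ j in atTop, x ∈ S j := by
    intro x
    obtain ⟨K, hK⟩ := exists_nat_ge (w x)
    filter_upwards [Pool.Agent.TH558.J717.Cube_eventually x, eventually_ge_atTop K] with j hj1 hj2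
    have hj3 : (K : ℝ) ≤ j := by exact_mod_cast hj2
    exact ⟨hj1, hK.trans hj3⟩
  set R : ℝ≥0∞ := ENNReal.ofReal A * eLpNorm f (ENNReal.ofReal p) volume *
        (eLpNorm g (ENNReal.ofReal q) volume *
          ∏ i : Fin k, eLpNorm (φ i) (ENNReal.ofReal q) volume) with hR
  -- truncated bound
  have key : ∀ j : ℕ, ∫⁻ x, (S j).indicator (fun x => ‖T x‖ₑ * ENNReal.ofReal (w x)) x ≤ R := by
    intro j
    set h : E (k + 2) → ℂ := (S j).indicator (fun x => cph (T x) * ((w x : ℝ) : ℂ)) with hh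
    have hhm : Measurable h :=
      ((cph_meas.comp hTc.measurable).mul (Complex.continuous_ofReal.measurable.comp hwm)).indicator
        (hSm j)
    have hhb : ∀ x, ‖h x‖ ≤ w x := by
      intro x
      rw [hh]
      by_cases hx : x ∈ S j
      · rw [indicator_of_mem hx, norm_mul, Complex.norm_real, Real.norm_of_nonneg (hw0 x)]
        calc _ ≤ 1 * w x := mul_le_mul_of_nonneg_right (cph_norm _) (hw0 x)
          _ = w x := one_mul _
      · rw [indicator_of_notMem hx, norm_zero]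
        exact hw0 x
    have hhG : GoodN h := by
      refine ⟨hhm, ⟨(j : ℝ), fun x => ?_⟩, ?_⟩
      · by_cases hx : x ∈ S j
        · exact (hhb x).trans hx.2
        · rw [hh, indicator_of_notMem hx, norm_zero]
          exact Nat.cast_nonneg j
      · refine ⟨Real.sqrt ((k + 2 : ℕ) * (j : ℝ) ^ 2), fun x hx => ?_⟩
        have hxS : x ∈ S j := by
          by_contra hc
          exact hx (by rw [hh, indicator_of_notMem hc])
        rw [EuclideanSpace.norm_eq]
        refine Real.sqrt_le_sqrt ?_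
        calc ∑ i : Fin (k + 2), ‖x i‖ ^ 2 ≤ ∑ i : Fin (k + 2), (j : ℝ) ^ 2 :=
              Finset.sum_le_sum fun i _ => by
                have := hxS.1 i
                rw [Real.norm_eq_abs]
                exact pow_le_pow_left₀ (abs_nonneg _) this 2
          _ = _ := by simp
    have hhi : Integrable h := Pool.Agent.TH278.J714.goodN_integrable hhG
    have hTh : ∀ x, T x * h x = (((S j).indicator (fun x => ‖T x‖ * w x) x : ℝ) : ℂ) := by
      intro x
      rw [hh]
      by_cases hx : x ∈ S j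
      · rw [indicator_of_mem hx, indicator_of_mem hx, ← mul_assoc, mul_cph]
        push_cast
        rfl
      · rw [indicator_of_notMem hx, indicator_of_notMem hx]
        simp
    obtain ⟨B, hB⟩ : ∃ B : ℝ, ∀ x, ‖T x‖ ≤ B := by
      refine ⟨∫ ξ : E (k + 2), ‖((M (‖ξ‖ ^ 2) : ℝ) : ℂ) * fh f ξ‖, fun x => ?_⟩
      rw [hT]
      unfold TR
      refine (norm_integral_le_integral_norm _).trans (le_of_eq ?_)
      congr 1
      funext ξ
      rw [norm_mul _ (e _), norm_e, mul_one]
      rfl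
    have hThi : Integrable (fun x => T x * h x) :=
      hhi.bdd_mul (c := B) hTc.aestronglyMeasurable (ae_of_all _ hB)
    have hri : Integrable ((S j).indicator (fun x => ‖T x‖ * w x)) := by
      have h1 := hThi.norm
      refine h1.congr (ae_of_all _ fun x => ?_)
      simp only
      rw [hTh, Complex.norm_real, Real.norm_of_nonneg]
      exact indicator_nonneg (fun x _ => mul_nonneg (norm_nonneg _) (hw0 x)) x
    have h1 : ∫⁻ x, (S j).indicator (fun x => ‖T x‖ₑ * ENNReal.ofReal (w x)) x =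
        ‖∫ x, T x * h x‖ₑ := by
      have h2 : (∫ x, T x * h x) = ((∫ x, (S j).indicator (fun x => ‖T x‖ * w x) x : ℝ) : ℂ) := by
        rw [← integral_complex_ofReal]
        exact integral_congr_ae (ae_of_all _ hTh)
      have h3 : 0 ≤ ∫ x, (S j).indicator (fun x => ‖T x‖ * w x) x :=
        integral_nonneg fun x => indicator_nonneg (fun x _ => mul_nonneg (norm_nonneg _) (hw0 x)) x
      rw [h2, ← ofReal_norm, Complex.norm_real, Real.norm_of_nonneg h3,
        ofReal_integral_eq_lintegral_ofReal hri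
          (ae_of_all _ (indicator_nonneg (fun x _ => mul_nonneg (norm_nonneg _) (hw0 x))))]
      refine lintegral_congr fun x => ?_
      by_cases hx : x ∈ S j
      · rw [indicator_of_mem hx, indicator_of_mem hx, ENNReal.ofReal_mul (norm_nonneg _),
          ofReal_norm]
      · rw [indicator_of_notMem hx, indicator_of_notMem hx, ENNReal.ofReal_zero]
    rw [h1, hT, TR_symm M hM hM2 f h hfi hhi]
    have hTRm : Measurable (TR (k + 2) M h) := (TR_cont M hM hM2 h hhi).measurable
    have hp0 : 0 < p := hpq.pos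
    have hq0 : 0 < q := hpq.symm.pos
    have hPe : ENNReal.ofReal p ≠ 0 := by simpa using hp0
    have hQe : ENNReal.ofReal q ≠ 0 := by simpa using hq0
    calc ‖∫ x, f x * TR (k + 2) M h x‖ₑ ≤ ∫⁻ x, ‖f x * TR (k + 2) M h x‖ₑ :=
          enorm_integral_le_lintegral_enorm _
      _ = ∫⁻ x, ((fun x => ‖f x‖ₑ) * (fun x => ‖TR (k + 2) M h x‖ₑ)) x := by
          refine lintegral_congr fun x => ?_
          rw [enorm_mul]
          rfl
      _ ≤ (∫⁻ x, ‖f x‖ₑ ^ p) ^ (1 / p) * (∫⁻ x, ‖TR (k + 2) M h x‖ₑ ^ q) ^ (1 / q) :=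
          ENNReal.lintegral_mul_le_Lp_mul_Lq _ hpq hf.measurable.enorm.aemeasurable
            hTRm.enorm.aemeasurable
      _ = eLpNorm f (ENNReal.ofReal p) volume *
          eLpNorm (TR (k + 2) M h) (ENNReal.ofReal q) volume := by
          rw [eLpNorm_eq_lintegral_rpow_enorm_toReal hPe ENNReal.ofReal_ne_top,
            eLpNorm_eq_lintegral_rpow_enorm_toReal hQe ENNReal.ofReal_ne_top,
            ENNReal.toReal_ofReal hp0.le, ENNReal.toReal_ofReal hq0.le]
      _ ≤ eLpNorm f (ENNReal.ofReal p) volume * (ENNReal.ofReal A *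
          (eLpNorm g (ENNReal.ofReal q) volume *
          ∏ i : Fin k, eLpNorm (φ i) (ENNReal.ofReal q) volume)) := by
          gcongr
          exact hA h hhm hhi hhb
      _ = R := by rw [hR]; ring
  have hlim : ∀ x, ‖T x‖ₑ * ENNReal.ofReal (w x) ≤
      liminf (fun j => (S j).indicator (fun x => ‖T x‖ₑ * ENNReal.ofReal (w x)) x) atTop := by
    intro x
    have : Tendsto (fun j => (S j).indicator (fun x => ‖T x‖ₑ * ENNReal.ofReal (w x)) x) atTop
        (𝓝 (‖T x‖ₑ * ENNReal.ofReal (w x))) := by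
      refine tendsto_const_nhds.congr' ?_
      filter_upwards [hSx x] with j hj
      rw [indicator_of_mem hj]
    exact this.liminf_eq.ge
  calc ∫⁻ x, ‖T x‖ₑ * ENNReal.ofReal (w x) ≤
      ∫⁻ x, liminf (fun j => (S j).indicator (fun x => ‖T x‖ₑ * ENNReal.ofReal (w x)) x) atTop :=
        lintegral_mono hlim
    _ ≤ liminf (fun j => ∫⁻ x, (S j).indicator (fun x => ‖T x‖ₑ * ENNReal.ofReal (w x)) x) atTop :=
        lintegral_liminf_le fun j => (hTc.measurable.enorm.mul hwm.ennreal_ofReal).indicator (hSm j)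
    _ ≤ R := by
        refine liminf_le_of_le (by isBoundedDefault) ?_
        intro b hb
        obtain ⟨j, hj⟩ := hb.exists
        exact hj.trans (key j)

end Pool.Agent.TH278
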