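import Mathlib
import Pool.Agent.TH278.Dual1
set_option autoImplicit false

/-! # The dual bound for all functions: summation -/

namespace Pool.Agent.TH278

open MeasureTheory Set Complex Filter
open scoped ENNReal RealInnerProductSpace Topology
open Pool.Agent.H438R2.RZ (e Good ft Pl Bump TR smooth_Lp decomp)
open Pool.Agent.H789R2.FR (E)
open Pool.Agent.TH822.J719

/-- Hölder with a product weight -/
theorem holder_prod (k : ℕ) (p q : ℝ) (hpq : p.HolderConjugate q) (T : E (k + 2) → ℂ)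
    (hT : Measurable T) (g : ℝ × ℝ → ℝ) (φ : Fin k → ℝ → ℝ) (hg : Measurable g)
    (hφ : ∀ i, Measurable (φ i)) :
    ∫⁻ x, ‖T x‖ₑ * (‖g (x 0, x 1)‖ₑ * ∏ i : Fin k, ‖φ i (x i.succ.succ)‖ₑ) ≤
      eLpNorm T (ENNReal.ofReal p) volume *
        (eLpNorm g (ENNReal.ofReal q) volume *
          ∏ i : Fin k, eLpNorm (φ i) (ENNReal.ofReal q) volume) := by
  have hp0 : 0 < p := hpq.pos
  have hq0 : 0 < q := hpq.symm.pos
  have hPe : ENNReal.ofReal p ≠ 0 := by simpa using hp0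
  have hQe : ENNReal.ofReal q ≠ 0 := by simpa using hq0
  have hWm : Measurable (fun x : E (k + 2) =>
      ‖g (x 0, x 1)‖ₑ * ∏ i : Fin k, ‖φ i (x i.succ.succ)‖ₑ) :=
    (hg.comp ((coord_meas 0).prodMk (coord_meas 1))).enorm.mul
      (Finset.measurable_prod _ fun i _ => ((hφ i).comp (coord_meas _)).enorm)
  have h1 := ENNReal.lintegral_mul_le_Lp_mul_Lq (volume : Measure (E (k + 2))) hpq
    hT.enorm.aemeasurable hWm.aemeasurable
  refine h1.trans (le_of_eq ?_)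
  have h2 : (∫⁻ x : E (k + 2), (‖g (x 0, x 1)‖ₑ * ∏ i : Fin k, ‖φ i (x i.succ.succ)‖ₑ) ^ q) ^ (1 / q) =
      eLpNorm g (ENNReal.ofReal q) volume *
          ∏ i : Fin k, eLpNorm (φ i) (ENNReal.ofReal q) volume := by
    have h3 : ∀ x : E (k + 2), (‖g (x 0, x 1)‖ₑ * ∏ i : Fin k, ‖φ i (x i.succ.succ)‖ₑ) ^ q =
        ‖g (x 0, x 1)‖ₑ ^ q * ∏ i : Fin k, ‖φ i (x i.succ.succ)‖ₑ ^ q := by
      intro x
      rw [ENNReal.mul_rpow_of_nonneg _ _ hq0.le, ENNReal.prod_rpow_of_nonneg hq0.le]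
    simp_rw [h3]
    rw [Pool.Agent.TH500.J718.lint_prod k (fun z => ‖g z‖ₑ ^ q) (hg.enorm.pow_const q)
      (fun i s => ‖φ i s‖ₑ ^ q) (fun i => (hφ i).enorm.pow_const q),
      ENNReal.mul_rpow_of_nonneg _ _ (by positivity), ← ENNReal.prod_rpow_of_nonneg (by positivity),
      eLpNorm_eq_lintegral_rpow_enorm_toReal hQe ENNReal.ofReal_ne_top,
      ENNReal.toReal_ofReal hq0.le]
    congr 1
    refine Finset.prod_congr rfl fun i _ => ?_
    rw [eLpNorm_eq_lintegral_rpow_enorm_toReal hQe ENNReal.ofReal_ne_top,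
      ENNReal.toReal_ofReal hq0.le]
  rw [h2, eLpNorm_eq_lintegral_rpow_enorm_toReal hPe ENNReal.ofReal_ne_top,
    ENNReal.toReal_ofReal hp0.le]

/-- summation of the pieces against a weight -/
theorem sum_weight (n : ℕ) (hn : 1 ≤ n) (p δ : ℝ) (hp : 1 ≤ p) (hδ : 0 < δ) {ι : Type*}
    (W : ι → E n → ℝ≥0∞) (hW : ∀ i, Measurable (W i)) (N : ι → SchwartzMap (E n) ℂ → ℝ≥0∞)
    (h0 : ∀ ψ : ℝ → ℝ, Bump ψ → ∃ C K : ℝ, 0 < C ∧ 0 < K ∧ ∀ L : ℝ, 20 ≤ L →
      ∀ (i : ι) (f : SchwartzMap (E n) ℂ), ∫⁻ x, ‖TR n (ML ψ L) (fun x => f x) x‖ₑ * W i x ≤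
        ENNReal.ofReal (C * (1 + Real.log L) ^ K) * N i f)
    (h1 : ∀ (i : ι) (f : SchwartzMap (E n) ℂ) (T : E n → ℂ) (C : ℝ), Measurable T →
      eLpNorm T (ENNReal.ofReal p) volume ≤
        ENNReal.ofReal C * eLpNorm (fun x => f x) (ENNReal.ofReal p) volume →
      ∫⁻ x, ‖T x‖ₑ * W i x ≤ ENNReal.ofReal C * N i f) :
    ∃ C : ℝ, ∀ (i : ι) (f : SchwartzMap (E n) ℂ),
      ∫⁻ x, ‖BR δ (fun x => f x) x‖ₑ * W i x ≤ ENNReal.ofReal C * N i f := by
  obtain ⟨ψ, hψ, hd⟩ := decomp δ hδ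
  obtain ⟨C1, K, hC1, hK, hb⟩ := h0 ψ hψ
  set s : ℝ := δ / 2 with hs
  have hs0 : 0 < s := by rw [hs]; linarith
  set C0 : ℝ := C1 * (1 + K / s) ^ K with hC0d
  have hC0 : 0 < C0 := by positivity
  set Lj : ℕ → ℝ := fun j => Real.sqrt (2 ^ j) with hLj
  have hLsq : ∀ j, Lj j ^ 2 = 2 ^ j := fun j => Real.sq_sqrt (by positivity)
  have hL1 : ∀ j, 1 ≤ Lj j := fun j => by
    rw [hLj]; simp only [Real.one_le_sqrt]; exact one_le_pow₀ (by norm_num)
  have hsm := fun j : ℕ => smooth_Lp n hn ψ hψ p hp (Lj j) (hL1 j)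
  choose Cj hCj hCb using hsm
  set a : ℕ → ℝ := fun j => if j < 9 then Cj j else C0 * Lj j ^ s with ha
  have ha0 : ∀ j, 0 ≤ a j := fun j => by
    rw [ha]; simp only
    split_ifs
    · exact (hCj j).le
    · have : 0 < Lj j ^ s := Real.rpow_pos_of_pos (by linarith [hL1 j]) _
      positivity
  have hTc : ∀ (j : ℕ) (f : SchwartzMap (E n) ℂ),
      Continuous (TR n (fun u => ψ (2 ^ j * (1 - u))) (fun x => f x)) := by
    intro j f
    refine TR_cont _ ((bump_cont hψ).comp (by fun_prop)) (fun u hu => bump_zero hψ ?_) _ f.integrable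
    have : (0 : ℝ) < 2 ^ j := by positivity
    nlinarith
  have hpiece : ∀ (j : ℕ) (i : ι) (f : SchwartzMap (E n) ℂ),
      ∫⁻ x, ‖TR n (fun u => ψ (2 ^ j * (1 - u))) (fun x => f x) x‖ₑ * W i x ≤
        ENNReal.ofReal (a j) * N i f := by
    intro j i f
    by_cases hj : j < 9
    · have h2 := hCb j f
      rw [hLsq j] at h2
      simp only [ha, if_pos hj]
      exact h1 i f _ _ (hTc j f).measurable h2
    · rw [← hLsq j]
      simp only [ha, if_neg hj]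
      have h20 : 20 ≤ Lj j := by
        rw [hLj]; simp only
        apply Real.le_sqrt_of_sq_le
        have : (2 : ℝ) ^ 9 ≤ 2 ^ j := pow_le_pow_right₀ (by norm_num) (by omega)
        linarith
      refine (hb (Lj j) h20 i f).trans (mul_le_mul' (ENNReal.ofReal_le_ofReal ?_) le_rfl)
      rw [hC0d, mul_assoc]
      exact mul_le_mul_of_nonneg_left (log_pow_le K s hK hs0 (Lj j) (hL1 j)) hC1.le
  -- summability
  have hsum : Summable fun j : ℕ => (2 : ℝ) ^ (-(δ * j)) * a j := by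
    have h1 : Summable fun j : ℕ => (2 : ℝ) ^ (-(δ * (j + 9 : ℕ))) * a (j + 9) := by
      have h2 : (fun j : ℕ => (2 : ℝ) ^ (-(δ * (j + 9 : ℕ))) * a (j + 9)) =
          fun j : ℕ => ((2 : ℝ) ^ (-(δ * 9) + 9 * s / 2) * C0) * ((2 : ℝ) ^ (s / 2 - δ)) ^ j := by
        funext j
        have h3 : ¬ (j + 9 < 9) := by omega
        simp only [ha, if_neg h3, hLj]
        rw [Real.sqrt_eq_rpow, ← Real.rpow_mul (by positivity), ← Real.rpow_natCast 2 (j + 9),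
          ← Real.rpow_mul (by norm_num), ← Real.rpow_natCast _ j, ← Real.rpow_mul (by norm_num)]
        rw [show (2 : ℝ) ^ (-(δ * ((j + 9 : ℕ) : ℝ))) * (C0 * 2 ^ ((((j + 9 : ℕ) : ℝ)) * (1 / 2 * s))) =
          C0 * (2 ^ (-(δ * ((j + 9 : ℕ) : ℝ))) * 2 ^ ((((j + 9 : ℕ) : ℝ)) * (1 / 2 * s))) by ring,
          ← Real.rpow_add (by norm_num)]
        rw [show (2 : ℝ) ^ (-(δ * 9) + 9 * s / 2) * C0 * 2 ^ ((s / 2 - δ) * (j : ℝ)) =
          C0 * (2 ^ (-(δ * 9) + 9 * s / 2) * 2 ^ ((s / 2 - δ) * (j : ℝ))) by ring,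
          ← Real.rpow_add (by norm_num)]
        congr 2
        push_cast; ring
      rw [h2]
      exact (summable_geometric_of_lt_one (Real.rpow_nonneg (by norm_num) _)
        (Real.rpow_lt_one_of_one_lt_of_neg (by norm_num) (by rw [hs]; linarith))).mul_left _
    exact (summable_nat_add_iff 9).mp h1
  have h2n : ∀ j : ℕ, 0 ≤ (2 : ℝ) ^ (-(δ * j)) := fun j => Real.rpow_nonneg (by norm_num) _
  refine ⟨∑' j : ℕ, (2 : ℝ) ^ (-(δ * j)) * a j, fun i f => ?_⟩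
  have hfi : Integrable (fun x => f x) (volume : Measure (E n)) := f.integrable
  have hpt : ∀ x, ‖BR δ (fun x => f x) x‖ₑ ≤ ∑' j : ℕ, ENNReal.ofReal ((2 : ℝ) ^ (-(δ * j))) *
      ‖TR n (fun u => ψ (2 ^ j * (1 - u))) (fun x => f x) x‖ₑ := by
    intro x
    have h3 := (hasSum_pieces δ hδ ψ hψ hd (fun x => f x) hfi x).tsum_eq
    have h4 : BR δ (fun x => f x) x = ∑' j : ℕ, (((2 : ℝ) ^ (-(δ * j)) : ℝ) : ℂ) *
      TR n (fun u => ψ (2 ^ j * (1 - u))) (fun x => f x) x := by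
      rw [h3]; rfl
    rw [h4]
    refine enorm_tsum_le_tsum_enorm.trans (le_of_eq ?_)
    refine tsum_congr fun j => ?_
    rw [enorm_mul, ← ofReal_norm (((2 : ℝ) ^ (-(δ * j)) : ℝ) : ℂ), Complex.norm_real,
      Real.norm_of_nonneg (h2n j)]
  calc ∫⁻ x, ‖BR δ (fun x => f x) x‖ₑ * W i x ≤
      ∫⁻ x, ∑' j : ℕ, ENNReal.ofReal ((2 : ℝ) ^ (-(δ * j))) *
      (‖TR n (fun u => ψ (2 ^ j * (1 - u))) (fun x => f x) x‖ₑ * W i x) := by
        refine lintegral_mono fun x => ?_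
        refine (mul_le_mul' (hpt x) le_rfl).trans (le_of_eq ?_)
        rw [← ENNReal.tsum_mul_right]
        refine tsum_congr fun j => ?_
        ring
    _ = ∑' j : ℕ, ∫⁻ x, ENNReal.ofReal ((2 : ℝ) ^ (-(δ * j))) *
      (‖TR n (fun u => ψ (2 ^ j * (1 - u))) (fun x => f x) x‖ₑ * W i x) := by
        refine lintegral_tsum fun j => ?_
        exact (((hTc j f).measurable.enorm.mul (hW i)).const_mul _).aemeasurable
    _ ≤ ∑' j : ℕ, ENNReal.ofReal ((2 : ℝ) ^ (-(δ * j)) * a j) * N i f := by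
        refine ENNReal.tsum_le_tsum fun j => ?_
        have h5 : Measurable (fun x => ‖TR n (fun u => ψ (2 ^ j * (1 - u))) (fun x => f x) x‖ₑ *
          W i x) := (hTc j f).measurable.enorm.mul (hW i)
        rw [lintegral_const_mul _ h5, ENNReal.ofReal_mul (h2n j), mul_assoc]
        exact mul_le_mul' le_rfl (hpiece j i f)
    _ = ENNReal.ofReal (∑' j : ℕ, (2 : ℝ) ^ (-(δ * j)) * a j) * N i f := by
        rw [ENNReal.tsum_mul_right, ENNReal.ofReal_tsum_of_nonneg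
          (fun j => mul_nonneg (h2n j) (ha0 j)) hsum]

/-- The dual bound for all Schwartz functions (operator `BR`, coordinates `0, 1`). -/
theorem BR_dual (k : ℕ) (δ p q : ℝ) (hδ : 0 < δ) (hpq : p.HolderConjugate q)
    (hq1 : 2 * ((k : ℝ) + 2) / ((k : ℝ) + 3) ≤ q) (hq2 : q ≤ 2) :
    ∃ C : ℝ, ∀ f : SchwartzMap (E (k + 2)) ℂ, ∀ (g : ℝ × ℝ → ℝ) (φ : Fin k → ℝ → ℝ),
      Measurable g → (∀ i, Measurable (φ i)) →
      ∫⁻ x, ‖BR δ (fun x => f x) x‖ₑ *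
        (‖g (x 0, x 1)‖ₑ * ∏ i : Fin k, ‖φ i (x i.succ.succ)‖ₑ) ≤
      ENNReal.ofReal C * (eLpNorm (fun x => f x) (ENNReal.ofReal p) volume *
        (eLpNorm g (ENNReal.ofReal q) volume *
          ∏ i : Fin k, eLpNorm (φ i) (ENNReal.ofReal q) volume)) := by
  obtain ⟨C, hC⟩ := sum_weight (k + 2) (by omega) p δ hpq.lt.le hδ
    (ι := {w : (ℝ × ℝ → ℝ) × (Fin k → ℝ → ℝ) // Measurable w.1 ∧ ∀ i, Measurable (w.2 i)})
    (fun w x => ‖w.1.1 (x 0, x 1)‖ₑ * ∏ i : Fin k, ‖w.1.2 i (x i.succ.succ)‖ₑ)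
    (fun w => (w.2.1.comp ((coord_meas 0).prodMk (coord_meas 1))).enorm.mul
      (Finset.measurable_prod _ fun i _ => ((w.2.2 i).comp (coord_meas _)).enorm))
    (fun w f => eLpNorm (fun x => f x) (ENNReal.ofReal p) volume *
        (eLpNorm w.1.1 (ENNReal.ofReal q) volume *
          ∏ i : Fin k, eLpNorm (w.1.2 i) (ENNReal.ofReal q) volume))
    (by
      intro ψ hψ
      obtain ⟨C, hC, h⟩ := dom_L k q hq1 hq2 ψ hψ
      refine ⟨C, 1, hC, one_pos, fun L hL w f => ?_⟩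
      have hd := dual_piece k p q hpq (C * (1 + Real.log L) ^ (1 : ℝ)) (ML ψ L)
        (Pool.Agent.TH558.J717.ML_cont ψ hψ L)
        (Pool.Agent.TH558.J717.ML_zero ψ hψ L) (fun x => f x) f.continuous f.integrable
        w.1.1 w.1.2 w.2.1 w.2.2
        (fun h' h1 h2 h3 => h L hL h' h1 h2 w.1.1 w.1.2 w.2.1 w.2.2 h3)
      refine hd.trans (le_of_eq ?_)
      ring)
    (by
      intro w f T C hT h
      refine (holder_prod k p q hpq T hT w.1.1 w.1.2 w.2.1 w.2.2).trans ?_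
      refine (mul_le_mul' h le_rfl).trans (le_of_eq ?_)
      ring)
  exact ⟨C, fun f g φ hg hφ => hC ⟨(g, φ), hg, hφ⟩ f⟩

end Pool.Agent.TH278
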