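import Mathlib
import Pool.Agent.TH278.Dual2
set_option autoImplicit false

/-! # The dual bound for all functions: any orthonormal coordinates -/

namespace Pool.Agent.TH278

open MeasureTheory Set Complex Filter
open scoped ENNReal RealInnerProductSpace Topology
open Pool.Agent.H438R2.RZ (e Good ft Pl Bump TR)
open Pool.Agent.H789R2.FR (E)

theorem conj_exp (k : ℕ) (p q : ℝ) (hp1 : 2 ≤ p)
    (hp2 : p ≤ 2 * ((k : ℝ) + 2) / ((k : ℝ) + 1)) (hpq : 1 / p + 1 / q = 1) :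
    p.HolderConjugate q ∧ 2 * ((k : ℝ) + 2) / ((k : ℝ) + 3) ≤ q ∧ q ≤ 2 := by
  have hk : (0 : ℝ) ≤ k := Nat.cast_nonneg k
  have hp0 : 0 < p := by linarith
  have h1 : 1 / p ≤ 1 / 2 := one_div_le_one_div_of_le (by norm_num) hp1
  have h1' : 0 < 1 / p := by positivity
  have hq : 1 / 2 ≤ 1 / q := by linarith
  have hq0 : 0 < q := by
    have : 0 < 1 / q := by linarith
    exact one_div_pos.mp this
  have h2 : p * ((k : ℝ) + 1) ≤ 2 * ((k : ℝ) + 2) := by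
    rwa [le_div_iff₀ (by positivity)] at hp2
  have h3 : ((k : ℝ) + 1) / (2 * ((k : ℝ) + 2)) ≤ 1 / p := by
    rw [div_le_div_iff₀ (by positivity) hp0]
    linarith
  refine ⟨?_, ?_, ?_⟩
  · rw [Real.holderConjugate_iff]
    refine ⟨by linarith, ?_⟩
    rw [← one_div, ← one_div]
    exact hpq
  · have h4 : 1 / q ≤ ((k : ℝ) + 3) / (2 * ((k : ℝ) + 2)) := by
      have : ((k : ℝ) + 3) / (2 * ((k : ℝ) + 2)) = 1 - ((k : ℝ) + 1) / (2 * ((k : ℝ) + 2)) := by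
        field_simp; ring
      linarith
    rw [div_le_div_iff₀ hq0 (by positivity)] at h4
    rw [div_le_iff₀ (by positivity)]
    linarith
  · by_contra hc
    push Not at hc
    have : 1 / q < 1 / 2 := one_div_lt_one_div_of_lt (by norm_num) hc
    linarith

/-- The dual bound for all Schwartz functions in any orthonormal coordinates. -/
theorem BR_dual_all (n : ℕ) (hn : 3 ≤ n) (δ : ℝ) (hδ : 0 < δ) (p q : ℝ) (hp1 : 2 ≤ p)
    (hp2 : p ≤ 2 * (n : ℝ) / ((n : ℝ) - 1)) (hpq : 1 / p + 1 / q = 1) :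
    ∃ C : ℝ, ∀ f : SchwartzMap (E n) ℂ, ∀ U : E n ≃ₗᵢ[ℝ] E n, ∀ i₀ i₁ : Fin n, i₀ ≠ i₁ →
      ∀ (g : ℝ × ℝ → ℝ) (φ : Fin n → ℝ → ℝ), Measurable g → (∀ i, Measurable (φ i)) →
      ∫⁻ x, ‖BR δ (fun x => f x) (U x)‖ₑ *
        (‖g (x i₀, x i₁)‖ₑ * ∏ i ∈ Finset.univ \ {i₀, i₁}, ‖φ i (x i)‖ₑ) ≤
      ENNReal.ofReal C * (eLpNorm (fun x => f x) (ENNReal.ofReal p) volume *
        (eLpNorm g (ENNReal.ofReal q) volume *
          ∏ i ∈ Finset.univ \ {i₀, i₁}, eLpNorm (φ i) (ENNReal.ofReal q) volume)) := by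
  obtain ⟨k, rfl⟩ : ∃ k, n = k + 2 := ⟨n - 2, by omega⟩
  obtain ⟨h1, h2, h3⟩ := conj_exp k p q hp1 (range_high k p hp2) hpq
  obtain ⟨C, hC⟩ := BR_dual k δ p q hδ h1 h2 h3
  refine ⟨C, fun f U i₀ i₁ hi g φ hg hφ => ?_⟩
  obtain ⟨σ, h0, h1⟩ := exists_perm k i₀ i₁ hi
  have h0' : σ.symm i₀ = 0 := by rw [← h0, Equiv.symm_apply_apply]
  have h1' : σ.symm i₁ = 1 := by rw [← h1, Equiv.symm_apply_apply]
  set P : E (k + 2) ≃ₗᵢ[ℝ] E (k + 2) := perm σ with hP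
  set W : E (k + 2) ≃ₗᵢ[ℝ] E (k + 2) := P.trans U with hW
  have hWx : ∀ x, W x = U (P x) := fun x => rfl
  have hPm := P.measurePreserving
  have he : MeasurableEmbedding (P : E (k + 2) → E (k + 2)) := P.toHomeomorph.measurableEmbedding
  have h := hC (rot W f) g (fun i => φ (σ i.succ.succ)) hg (fun i => hφ _)
  have e1 : (fun x => rot W f x) = fun x => f (W x) := rfl
  have e2 : BR δ (fun x => f (W x)) = fun x => BR δ (fun y => f y) (W x) :=
    funext fun x => BR_rot δ W (fun y => f y) x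
  rw [e1, e2, eLpNorm_rot W (fun x => f x)] at h
  rw [prod_perm k i₀ i₁ σ h0 h1 (fun i => eLpNorm (φ i) (ENNReal.ofReal q) volume)]
  refine le_trans (le_of_eq ?_) h
  rw [← hPm.lintegral_comp_emb he]
  refine lintegral_congr fun x => ?_
  rw [prod_perm k i₀ i₁ σ h0 h1]
  simp only [hWx, hP, perm_apply, h0', h1', Equiv.symm_apply_apply]

end Pool.Agent.TH278
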